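import Pool.Agent.Helper41.NX.Gap

/-!
# Project NX, module NX-19, part D: from the sequence to all integers
-/

set_option autoImplicit false

open Finset
open scoped BigOperators ComplexConjugate

namespace Pool.Agent.Helper41.NX

open Pool.Agent.Helper57.NX

noncomputable section

theorem base_conv (m : ℕ) (c : Fin (m + 1) → ℝ) (hc0 : ∀ i, 0 < c i) :
    ∃ C : ℝ, 0 < C ∧ ∀ ε : ℝ, 0 < ε → ε ≤ 1 / 2 → ∀ (S : Sys (m + 1)) (N : ℕ) [NeZero N] (x0 : ℝ),
    x0 ≤ c (Fin.last m) → x0 ≤ 1 / 8 → Good S c N x0 → 4 ≤ S.D → C * S.D ^ (-ε) ≤ 1 / 2 →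
    ∀ σ : ℝ, 0 ≤ σ → σ ≤ 1 / 8 → ∀ X : ℝ, S.Q * S.D ^ (c (Fin.last m) - 1 / 4) ≤ X →
    ∀ f : ZMod N → ℂ, Adm (S.D ^ σ) X f → ∀ b : ZMod N → ℂ, (∀ x, ‖b x‖ ≤ 1) →
    ∀ V : ℝ, 0 ≤ V → V ≤ S.D ^ (1 / 3 : ℝ) → ∀ v : ZMod N → Fin m → ℝ,
    (∀ x, b x ≠ 0 → ∀ i, |v x i| ≤ V) → ∀ K : ℕ, 1 ≤ K → (K : ℝ) ≤ S.D ^ (1 - ε) →
    S.D ^ (1 - ε) / 2 ≤ (K : ℝ) → ∀ u1 ∈ S.I, ∃ z0 Z : ℕ,
      3 / 4 * S.P (Fin.last m) ≤ z0 ∧
      (z0 : ℝ) + Z ≤ 4 ^ (c (Fin.last m)) * S.P (Fin.last m) ∧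
      c (Fin.last m) / 16 * (S.P (Fin.last m) * S.D ^ (-ε)) ≤ Z ∧
      ‖𝔼 x, b x * 𝔼 j ∈ range K, f (x + (S.a c (Fin.last m) (u1 + j) : ZMod N)) *
        e (∑ i : Fin m, v x i * (S.t (u1 + j)) ^ (c i.castSucc))‖ ≤
      ‖𝔼 x, b x * 𝔼 z ∈ Ico z0 (z0 + Z), f (x + (z : ZMod N)) *
        e (∑ i : Fin m, v x i * ((z : ℝ) / S.P (Fin.last m)) ^
          (c i.castSucc / c (Fin.last m)))‖ + C * S.D ^ (-ε) := by
  set cl : ℝ := c (Fin.last m) with hcl
  have hcl0 : 0 < cl := hc0 _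
  obtain ⟨C1, hC10, hC1⟩ := rpow_lip cl 1 4 one_pos
  obtain ⟨C2, hC20, hC2⟩ := rpow_lip (cl - 1) 1 4 one_pos
  obtain ⟨C3, hC30, hC3⟩ := rpow_taylor cl 1 4 one_pos
  have h4 : (1 : ℝ) ≤ 4 ^ cl := Real.one_le_rpow (by norm_num) hcl0.le
  have hL : ∀ i : Fin m, ∃ C : ℝ, 0 < C ∧ ∀ x ∈ Set.Icc (1 / 2) ((4 : ℝ) ^ cl),
      ∀ y ∈ Set.Icc (1 / 2) ((4 : ℝ) ^ cl), |x ^ (c i.castSucc / cl) - y ^ (c i.castSucc / cl)| ≤
        C * |x - y| := fun i => rpow_lip _ _ _ (by norm_num)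
  choose C4 hC40 hC4 using hL
  set E4 : ℝ := ∑ i, C4 i with hE4
  have hE40 : 0 ≤ E4 := sum_nonneg fun i _ => (hC40 i).le
  set Cη : ℝ := 4 / cl * (1 + C3 + cl * C2) with hCη
  have hCη0 : 0 < Cη := by positivity
  set C5 : ℝ := 4 * cl * 4 ^ cl + 2 * Real.pi * (E4 * (1 + C1)) with hC5
  have hpi := Real.pi_pos
  have hC50 : 0 < C5 := by
    have : 0 ≤ 2 * Real.pi * (E4 * (1 + C1)) := by positivity
    have h5 : 0 < 4 * cl * 4 ^ cl := by positivity
    linarith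
  refine ⟨4 * Cη + C5, by positivity, ?_⟩
  intro ε hε hε2 S N _ x0 hx0c hx08 hG hD4 hDε σ hσ0 hσ8 X hX f hf b hb V hV0 hV v hv K hK1 hKu hKl
    u1 hu1
  set D : ℝ := S.D with hD
  set P : ℝ := S.P (Fin.last m) with hP
  have hD0 : 0 < D := by linarith
  have hD1 : 1 ≤ D := by linarith
  have hQ0 : (0 : ℝ) < S.Q := lt_of_lt_of_le (by positivity) hG.Q1
  -- size of P
  have hPl : S.Q * D ^ (cl - x0) ≤ P := hG.P1 (Fin.last m)
  have hPu : P ≤ S.Q * D ^ (cl + x0) := hG.P2 (Fin.last m)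
  have hPN : P ≤ N * D ^ x0 := hG.N1 (Fin.last m)
  have hPD2 : D ^ (2 : ℝ) ≤ P := by
    have h1 : (1 : ℝ) ≤ D ^ (cl - x0) := Real.one_le_rpow hD1 (by linarith)
    calc D ^ (2 : ℝ) ≤ S.Q := hG.Q1
      _ ≤ S.Q * D ^ (cl - x0) := le_mul_of_one_le_right hQ0.le h1
      _ ≤ P := hPl
  have hDD : D * D ≤ P := by
    have h1 : D ^ (2 : ℝ) = D * D := by
      rw [Real.rpow_two]; ring
    exact h1 ▸ hPD2
  have hDD4 : D ≤ D * D := by nlinarith only [hD4]
  have hDD16 : 16 ≤ D * D := by nlinarith only [hD4]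
  have hP0 : 0 < P := by linarith only [hDD, hDD16]
  have hP16 : 16 ≤ P := by linarith only [hDD, hDD16]
  have hPgeD : D ≤ P := by linarith only [hDD, hDD4]
  -- the sequence
  have hDε0 : 0 < D ^ (-ε) := by positivity
  have hK0 : (0 : ℝ) < K := by positivity
  have hD1ε : D ^ (1 - ε) = D * D ^ (-ε) := by
    rw [sub_eq_add_neg, Real.rpow_add hD0, Real.rpow_one]
  have hDε1 : D ^ (-ε) ≤ 1 := Real.rpow_le_one_of_one_le_of_nonpos hD1 (by linarith)
  have hKD : (K : ℝ) ≤ D := by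
    rw [hD1ε] at hKu
    exact hKu.trans (mul_le_of_le_one_right hD0.le hDε1)
  rw [Sys.I, mem_Ico] at hu1
  have hu1l : D ≤ (u1 : ℝ) := hG.u1.trans (by exact_mod_cast hu1.1)
  have hu1u : (u1 : ℝ) ≤ 2 * D := by
    have h1 : (u1 : ℝ) ≤ S.u + S.T := by exact_mod_cast hu1.2.le
    exact h1.trans hG.u2
  have htmem : ∀ j ≤ K, S.t (u1 + j) ∈ Set.Icc (1 : ℝ) 4 := by
    intro j hj
    have hjK : (j : ℝ) ≤ K := by exact_mod_cast hj
    have hj0 : (0 : ℝ) ≤ j := by positivity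
    unfold Sys.t
    rw [← hD]
    push_cast
    constructor
    · rw [le_div_iff₀ hD0]
      linarith [hG.ρ0]
    · rw [div_le_iff₀ hD0]
      linarith [hG.ρ1]
  have htstep : ∀ j, S.t (u1 + (j + 1)) - S.t (u1 + j) = 1 / D := by
    intro j
    unfold Sys.t
    rw [← hD]
    push_cast
    field_simp
    ring
  have ht0 : ∀ j : ℕ, S.t (u1 + j) - S.t u1 = j / D := by
    intro j
    unfold Sys.t
    rw [← hD]
    push_cast
    field_simp
    ring
  set α : ℕ → ℕ := fun j => ⌊P * S.t (u1 + j) ^ cl⌋₊ with hα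
  have htpos : ∀ j ≤ K, (1 : ℝ) ≤ S.t (u1 + j) ^ cl := fun j hj =>
    Real.one_le_rpow (htmem j hj).1 hcl0.le
  have hαa : ∀ j ≤ K, (S.a c (Fin.last m) (u1 + j) : ℤ) = (α j : ℤ) := by
    intro j hj
    have h1 : 0 ≤ P * S.t (u1 + j) ^ cl := by
      have := htpos j hj
      positivity
    unfold Sys.a
    rw [← hP, ← hcl]
    exact (Int.natCast_floor_eq_floor h1).symm
  have hαl : ∀ j ≤ K, P * S.t (u1 + j) ^ cl - 1 < α j := fun j _ => Nat.sub_one_lt_floor _
  have hαu : ∀ j ≤ K, (α j : ℝ) ≤ P * S.t (u1 + j) ^ cl := fun j hj =>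
    Nat.floor_le (by have := htpos j hj; positivity)
  have hα0t : α 0 = ⌊P * S.t u1 ^ cl⌋₊ := by simp [hα]
  set t0 : ℝ := S.t u1 with ht0def
  have ht0mem : t0 ∈ Set.Icc (1 : ℝ) 4 := by
    have := htmem 0 (Nat.zero_le _)
    simpa using this
  set g0 : ℝ := P * (cl * t0 ^ (cl - 1)) / D with hg0
  have ht01 : 1 / 4 ≤ t0 ^ (cl - 1) := by
    have h1 : t0 ^ (cl - 1) = t0 ^ cl / t0 := Real.rpow_sub_one (by linarith [ht0mem.1]) _
    rw [h1, div_le_div_iff₀ (by norm_num) (by linarith [ht0mem.1])]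
    have h2 : 1 ≤ t0 ^ cl := Real.one_le_rpow ht0mem.1 hcl0.le
    linarith [ht0mem.2]
  have ht02 : t0 ^ (cl - 1) ≤ 4 ^ cl := by
    have h1 : t0 ^ (cl - 1) ≤ t0 ^ cl :=
      Real.rpow_le_rpow_of_exponent_le ht0mem.1 (by linarith)
    exact h1.trans (Real.rpow_le_rpow (by linarith [ht0mem.1]) ht0mem.2 hcl0.le)
  have hg0l : P / D * (cl / 4) ≤ g0 := by
    have h1 : g0 = P / D * (cl * t0 ^ (cl - 1)) := by rw [hg0]; ring
    rw [h1]
    apply mul_le_mul_of_nonneg_left _ (by positivity)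
    nlinarith only [ht01, hcl0]
  have hg0u : g0 ≤ P / D * (cl * 4 ^ cl) := by
    have h1 : g0 = P / D * (cl * t0 ^ (cl - 1)) := by rw [hg0]; ring
    rw [h1]
    apply mul_le_mul_of_nonneg_left _ (by positivity)
    exact mul_le_mul_of_nonneg_left ht02 hcl0.le
  have hPDpos : 0 < P / D := by positivity
  have hg0pos : 0 < g0 := lt_of_lt_of_le (by positivity) hg0l
  -- Dinv ≤ D^{-ε}
  have hDinv : 1 / D ≤ D ^ (-ε) := by
    have h1 : (1 : ℝ) / D = D ^ (-1 : ℝ) := by rw [Real.rpow_neg_one]; ring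
    rw [h1]
    exact Real.rpow_le_rpow_of_exponent_le hD1 (by linarith)
  set η : ℝ := Cη * D ^ (-ε) with hη
  have hη0 : 0 ≤ η := by positivity
  have hηhalf : η ≤ 1 / 2 := by
    have h1 : η ≤ (4 * Cη + C5) * D ^ (-ε) := by
      rw [hη]
      apply mul_le_mul_of_nonneg_right _ hDε0.le
      linarith
    linarith
  have hgap : ∀ j < K, |((α (j + 1) : ℝ) - α j) - g0| ≤ η * g0 := by
    intro j hj
    have hjK : (j : ℝ) ≤ K := by exact_mod_cast hj.le
    have h1 := hC3 _ (htmem (j + 1) hj) _ (htmem j hj.le)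
    rw [htstep] at h1
    have h2 := hC2 _ (htmem j hj.le) _ ht0mem
    rw [ht0 j] at h2
    have h3 : |(j : ℝ) / D| ≤ D ^ (-ε) := by
      rw [abs_of_nonneg (by positivity), div_le_iff₀ hD0]
      calc (j : ℝ) ≤ K := hjK
        _ ≤ D ^ (1 - ε) := hKu
        _ = _ := by rw [hD1ε]; ring
    have h5 : |((α (j + 1) : ℝ) - α j) - P * (S.t (u1 + (j + 1)) ^ cl - S.t (u1 + j) ^ cl)| ≤ 1 := by
      have a1 := hαl (j + 1) hj
      have a2 := hαu (j + 1) hj
      have a3 := hαl j hj.le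
      have a4 := hαu j hj.le
      rw [abs_le]
      constructor <;> linarith
    have h6 : ((α (j + 1) : ℝ) - α j) - g0 =
        (((α (j + 1) : ℝ) - α j) - P * (S.t (u1 + (j + 1)) ^ cl - S.t (u1 + j) ^ cl)) +
        P * (S.t (u1 + (j + 1)) ^ cl - S.t (u1 + j) ^ cl -
          cl * S.t (u1 + j) ^ (cl - 1) * (1 / D)) +
        P / D * (cl * (S.t (u1 + j) ^ (cl - 1) - t0 ^ (cl - 1))) := by
      rw [hg0]
      ring
    rw [h6]
    have h7 : |P * (S.t (u1 + (j + 1)) ^ cl - S.t (u1 + j) ^ cl -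
          cl * S.t (u1 + j) ^ (cl - 1) * (1 / D))| ≤ P / D * (C3 * D ^ (-ε)) := by
      rw [abs_mul, abs_of_pos hP0]
      calc P * _ ≤ P * (C3 * (1 / D) ^ 2) := mul_le_mul_of_nonneg_left h1 hP0.le
        _ = P / D * (C3 * (1 / D)) := by ring
        _ ≤ P / D * (C3 * D ^ (-ε)) := by
            apply mul_le_mul_of_nonneg_left _ hPDpos.le
            exact mul_le_mul_of_nonneg_left hDinv hC30.le
    have h8 : |P / D * (cl * (S.t (u1 + j) ^ (cl - 1) - t0 ^ (cl - 1)))| ≤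
        P / D * (cl * C2 * D ^ (-ε)) := by
      rw [abs_mul, abs_of_pos hPDpos, abs_mul, abs_of_pos hcl0]
      apply mul_le_mul_of_nonneg_left _ hPDpos.le
      rw [mul_assoc]
      apply mul_le_mul_of_nonneg_left _ hcl0.le
      exact h2.trans (mul_le_mul_of_nonneg_left h3 hC20.le)
    have h9 : (1 : ℝ) ≤ P / D * D ^ (-ε) := by
      calc (1 : ℝ) = D * (1 / D) := by field_simp
        _ ≤ P / D * D ^ (-ε) := by
            apply mul_le_mul _ hDinv (by positivity) hPDpos.le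
            rw [le_div_iff₀ hD0]
            exact hDD
    have h10 : |(((α (j + 1) : ℝ) - α j) - P * (S.t (u1 + (j + 1)) ^ cl - S.t (u1 + j) ^ cl)) +
        P * (S.t (u1 + (j + 1)) ^ cl - S.t (u1 + j) ^ cl -
          cl * S.t (u1 + j) ^ (cl - 1) * (1 / D)) +
        P / D * (cl * (S.t (u1 + j) ^ (cl - 1) - t0 ^ (cl - 1)))| ≤
        P / D * ((1 + C3 + cl * C2) * D ^ (-ε)) := by
      refine (abs_add_three _ _ _).trans ?_
      have : P / D * ((1 + C3 + cl * C2) * D ^ (-ε)) = P / D * D ^ (-ε) +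
        P / D * (C3 * D ^ (-ε)) + P / D * (cl * C2 * D ^ (-ε)) := by ring
      linarith
    refine h10.trans ?_
    have h11 : η * g0 ≥ η * (P / D * (cl / 4)) := mul_le_mul_of_nonneg_left hg0l hη0
    have h12 : η * (P / D * (cl / 4)) = P / D * ((1 + C3 + cl * C2) * D ^ (-ε)) := by
      rw [hη, hCη]
      field_simp
    linarith
  have hαmono : ∀ j < K, α j ≤ α (j + 1) := by
    intro j hj
    have h1 := abs_le.mp (hgap j hj)
    have h2 : η * g0 ≤ g0 / 2 := by nlinarith only [hηhalf, hg0pos]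
    have h3 : (α j : ℝ) ≤ α (j + 1) := by linarith only [h1.1, h2, hg0pos]
    exact_mod_cast h3
  -- the two averages
  set G : ℕ → ℂ := fun j => 𝔼 x, b x * (f (x + (S.a c (Fin.last m) (u1 + j) : ZMod N)) *
        e (∑ i : Fin m, v x i * (S.t (u1 + j)) ^ (c i.castSucc))) with hGdef
  set Gt : ℕ → ℂ := fun z => 𝔼 x, b x * (f (x + (z : ZMod N)) *
        e (∑ i : Fin m, v x i * ((z : ℝ) / P) ^ (c i.castSucc / cl))) with hGtdef
  have hG1 : ∀ j, ‖G j‖ ≤ 1 := by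
    intro j
    refine norm_expect_le_of5 _ _ zero_le_one fun x _ => ?_
    rw [norm_mul, norm_mul, norm_e, mul_one]
    exact mul_le_one₀ (hb x) (norm_nonneg _) (hf.bdd _)
  have hXpos : 0 < X := lt_of_lt_of_le (by positivity) hX
  have hN0 : (0 : ℝ) < N := by
    have := NeZero.pos N
    exact_mod_cast this
  have hGt : ∀ j < K, ∀ z ∈ Ico (α j) (α (j + 1)), ‖G j - Gt z‖ ≤ C5 * D ^ (-ε) := by
    intro j hj z hz
    rw [mem_Ico] at hz
    have hz1 : (α j : ℝ) ≤ z := by exact_mod_cast hz.1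
    have hz2 : (z : ℝ) ≤ α (j + 1) := by exact_mod_cast hz.2.le
    have a1 := hαl (j + 1) hj
    have a2 := hαu (j + 1) hj
    have a3 := hαl j hj.le
    have a4 := hαu j hj.le
    have b1 := htpos j hj.le
    have b2 := htpos (j + 1) hj
    have b3 : S.t (u1 + j) ^ cl ≤ 4 ^ cl :=
      Real.rpow_le_rpow (by linarith [(htmem j hj.le).1]) (htmem j hj.le).2 hcl0.le
    have b4 : S.t (u1 + (j + 1)) ^ cl ≤ 4 ^ cl :=
      Real.rpow_le_rpow (by linarith [(htmem (j + 1) hj).1]) (htmem (j + 1) hj).2 hcl0.le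
    have b5 := hC1 _ (htmem (j + 1) hj) _ (htmem j hj.le)
    rw [htstep, abs_of_pos (by positivity : 0 < 1 / D)] at b5
    have b6 := (abs_le.mp b5).2
    -- z / P close to t^cl
    have hzP : |(z : ℝ) / P - S.t (u1 + j) ^ cl| ≤ (1 + C1) / D := by
      have h1 : 1 / P ≤ 1 / D := by
        exact one_div_le_one_div_of_le hD0 hPgeD
      have h2 : S.t (u1 + j) ^ cl - 1 / P ≤ (z : ℝ) / P := by
        rw [le_div_iff₀ hP0, sub_mul, one_div, inv_mul_cancel₀ hP0.ne']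
        linarith
      have h3 : (z : ℝ) / P ≤ S.t (u1 + (j + 1)) ^ cl := by
        rw [div_le_iff₀ hP0]
        linarith
      have h4 : (1 + C1) / D = 1 / D + C1 * (1 / D) := by ring
      rw [h4, abs_le]
      have h5 : 0 ≤ C1 * (1 / D) := by positivity
      have h6 : 0 ≤ 1 / D := by positivity
      constructor <;> linarith
    have hzmem : (z : ℝ) / P ∈ Set.Icc (1 / 2) ((4 : ℝ) ^ cl) := by
      constructor
      · rw [le_div_iff₀ hP0]
        nlinarith only [hz1, a3, b1, hP16]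
      · rw [div_le_iff₀ hP0]
        nlinarith only [hz2, a2, b4, hP16]
    have htm : S.t (u1 + j) ^ cl ∈ Set.Icc (1 / 2) ((4 : ℝ) ^ cl) := ⟨by linarith, b3⟩
    -- f close
    have hfz : 𝔼 x, ‖f (x + (S.a c (Fin.last m) (u1 + j) : ZMod N)) - f (x + (z : ZMod N))‖ ≤
        4 * cl * 4 ^ cl * D ^ (-ε) := by
      have h1 : ((S.a c (Fin.last m) (u1 + j) : ℤ) : ZMod N) =
          (z : ZMod N) + (((α j : ℤ) - z : ℤ) : ZMod N) := by
        rw [hαa j hj.le]
        push_cast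
        ring
      have h2 : ∀ x : ZMod N, f (x + (S.a c (Fin.last m) (u1 + j) : ZMod N)) -
          f (x + (z : ZMod N)) = f ((x + (z : ZMod N)) + (((α j : ℤ) - z : ℤ) : ZMod N)) -
          f (x + (z : ZMod N)) := by
        intro x
        rw [h1, add_assoc]
      simp only [h2]
      rw [expect_shift (fun y => ‖f (y + (((α j : ℤ) - z : ℤ) : ZMod N)) - f y‖)
        (z : ZMod N)]
      refine (hf.tv.l1_shift hXpos _).trans ?_
      have h3 : |(((α j : ℤ) - z : ℤ) : ℝ)| ≤ 2 * (P / D * (cl * 4 ^ cl)) := by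
        have h30 := (abs_le.mp (hgap j hj)).2
        have h31 : η * g0 ≤ g0 / 2 := by nlinarith only [hηhalf, hg0pos]
        push_cast
        rw [abs_le]
        constructor <;> linarith
      have h4 : 1 / X ≤ D ^ (3 / 8 : ℝ) / P := by
        rw [div_le_div_iff₀ hXpos hP0, one_mul]
        calc P ≤ S.Q * D ^ (cl + x0) := hPu
          _ ≤ S.Q * D ^ (3 / 8 + (cl - 1 / 4)) := by
              apply mul_le_mul_of_nonneg_left _ hQ0.le
              exact Real.rpow_le_rpow_of_exponent_le hD1 (by linarith)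
          _ = D ^ (3 / 8 : ℝ) * (S.Q * D ^ (cl - 1 / 4)) := by
              rw [Real.rpow_add hD0]; ring
          _ ≤ D ^ (3 / 8 : ℝ) * X := mul_le_mul_of_nonneg_left hX (by positivity)
      have h5 : 1 / (N : ℝ) ≤ D ^ (3 / 8 : ℝ) / P := by
        rw [div_le_div_iff₀ hN0 hP0, one_mul]
        calc P ≤ N * D ^ x0 := hPN
          _ ≤ N * D ^ (3 / 8 : ℝ) := by
              apply mul_le_mul_of_nonneg_left _ hN0.le
              exact Real.rpow_le_rpow_of_exponent_le hD1 (by linarith)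
          _ = _ := by ring
      have h6 : D ^ σ ≤ D ^ (1 / 8 : ℝ) := Real.rpow_le_rpow_of_exponent_le hD1 hσ8
      have h7 : D ^ (1 / 8 : ℝ) * D ^ (3 / 8 : ℝ) = D ^ (1 / 2 : ℝ) := by
        rw [← Real.rpow_add hD0]; norm_num
      have h8 : D ^ (1 / 2 : ℝ) / D ≤ D ^ (-ε) := by
        have h80 : D ^ (1 / 2 : ℝ) / D = D ^ (1 / 2 - 1 : ℝ) := by
          rw [Real.rpow_sub_one hD0.ne']
        rw [h80]
        exact Real.rpow_le_rpow_of_exponent_le hD1 (by linarith)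
      calc |(((α j : ℤ) - z : ℤ) : ℝ)| * D ^ σ * (1 / X + 1 / N)
          ≤ (2 * (P / D * (cl * 4 ^ cl))) * D ^ (1 / 8 : ℝ) *
            (D ^ (3 / 8 : ℝ) / P + D ^ (3 / 8 : ℝ) / P) := by
            apply mul_le_mul _ (add_le_add h4 h5) (by positivity) (by positivity)
            exact mul_le_mul h3 h6 (by positivity) (by positivity)
        _ = 4 * cl * 4 ^ cl * ((D ^ (1 / 8 : ℝ) * D ^ (3 / 8 : ℝ)) / D) := by
            field_simp
            ring
        _ = 4 * cl * 4 ^ cl * (D ^ (1 / 2 : ℝ) / D) := by rw [h7]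
        _ ≤ _ := mul_le_mul_of_nonneg_left h8 (by positivity)
    -- phases close
    have hph : ∀ x, b x ≠ 0 → ‖e (∑ i : Fin m, v x i * (S.t (u1 + j)) ^ (c i.castSucc)) -
        e (∑ i : Fin m, v x i * ((z : ℝ) / P) ^ (c i.castSucc / cl))‖ ≤
        2 * Real.pi * (E4 * (1 + C1)) * D ^ (-ε) := by
      intro x hx
      refine (norm_e_sub_e_le _ _).trans ?_
      rw [mul_assoc (2 * Real.pi)]
      apply mul_le_mul_of_nonneg_left _ (by positivity)
      rw [← sum_sub_distrib]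
      refine (abs_sum_le_sum_abs _ _).trans ?_
      have h1 : ∀ i : Fin m, |v x i * (S.t (u1 + j)) ^ (c i.castSucc) -
          v x i * ((z : ℝ) / P) ^ (c i.castSucc / cl)| ≤ C4 i * ((1 + C1) * D ^ (-ε)) := by
        intro i
        have h2 : (S.t (u1 + j)) ^ (c i.castSucc) =
            ((S.t (u1 + j)) ^ cl) ^ (c i.castSucc / cl) := by
          rw [← Real.rpow_mul (by linarith [(htmem j hj.le).1]), mul_div_cancel₀ _ hcl0.ne']
        rw [h2, ← mul_sub, abs_mul]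
        have h3 := hC4 i _ htm _ hzmem
        rw [abs_sub_comm (S.t (u1 + j) ^ cl)] at h3
        have h5 : |((S.t (u1 + j)) ^ cl) ^ (c i.castSucc / cl) -
            ((z : ℝ) / P) ^ (c i.castSucc / cl)| ≤ C4 i * ((1 + C1) / D) :=
          h3.trans (mul_le_mul_of_nonneg_left hzP (hC40 i).le)
        calc |v x i| * _ ≤ D ^ (1 / 3 : ℝ) * (C4 i * ((1 + C1) / D)) :=
              mul_le_mul ((hv x hx i).trans hV) h5 (abs_nonneg _) (by positivity)
          _ = C4 i * ((1 + C1) * (D ^ (1 / 3 : ℝ) / D)) := by ring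
          _ ≤ C4 i * ((1 + C1) * D ^ (-ε)) := by
              apply mul_le_mul_of_nonneg_left _ (hC40 i).le
              apply mul_le_mul_of_nonneg_left _ (by positivity)
              rw [← Real.rpow_sub_one hD0.ne']
              exact Real.rpow_le_rpow_of_exponent_le hD1 (by linarith)
      calc _ ≤ ∑ i, C4 i * ((1 + C1) * D ^ (-ε)) := sum_le_sum fun i _ => h1 i
        _ = _ := by rw [← sum_mul, ← hE4]; ring
    -- combine
    simp only [hGdef, hGtdef]
    rw [← expect_sub_distrib]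
    refine (norm_expect_le5 _ _).trans ?_
    have hterm : ∀ x : ZMod N, ‖b x * (f (x + (S.a c (Fin.last m) (u1 + j) : ZMod N)) *
        e (∑ i : Fin m, v x i * (S.t (u1 + j)) ^ (c i.castSucc))) -
        b x * (f (x + (z : ZMod N)) *
        e (∑ i : Fin m, v x i * ((z : ℝ) / P) ^ (c i.castSucc / cl)))‖ ≤
        ‖f (x + (S.a c (Fin.last m) (u1 + j) : ZMod N)) - f (x + (z : ZMod N))‖ +
        2 * Real.pi * (E4 * (1 + C1)) * D ^ (-ε) := by
      intro x
      by_cases hx : b x = 0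
      · rw [hx]
        simp only [zero_mul, sub_zero, norm_zero]
        have : 0 ≤ 2 * Real.pi * (E4 * (1 + C1)) * D ^ (-ε) := by positivity
        have h0 := norm_nonneg (f (x + (S.a c (Fin.last m) (u1 + j) : ZMod N)) -
          f (x + (z : ZMod N)))
        linarith
      · have h1 : b x * (f (x + (S.a c (Fin.last m) (u1 + j) : ZMod N)) *
          e (∑ i : Fin m, v x i * (S.t (u1 + j)) ^ (c i.castSucc))) -
          b x * (f (x + (z : ZMod N)) *
          e (∑ i : Fin m, v x i * ((z : ℝ) / P) ^ (c i.castSucc / cl))) =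
          b x * ((f (x + (S.a c (Fin.last m) (u1 + j) : ZMod N)) - f (x + (z : ZMod N))) *
            e (∑ i : Fin m, v x i * (S.t (u1 + j)) ^ (c i.castSucc)) +
            f (x + (z : ZMod N)) * (e (∑ i : Fin m, v x i * (S.t (u1 + j)) ^ (c i.castSucc)) -
            e (∑ i : Fin m, v x i * ((z : ℝ) / P) ^ (c i.castSucc / cl)))) := by ring
        rw [h1, norm_mul]
        have h2 := norm_add_le ((f (x + (S.a c (Fin.last m) (u1 + j) : ZMod N)) -
            f (x + (z : ZMod N))) * e (∑ i : Fin m, v x i * (S.t (u1 + j)) ^ (c i.castSucc)))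
            (f (x + (z : ZMod N)) * (e (∑ i : Fin m, v x i * (S.t (u1 + j)) ^ (c i.castSucc)) -
            e (∑ i : Fin m, v x i * ((z : ℝ) / P) ^ (c i.castSucc / cl))))
        rw [norm_mul, norm_mul, norm_e, mul_one] at h2
        have h3 := mul_le_mul (hf.bdd (x + (z : ZMod N))) (hph x hx) (norm_nonneg _) zero_le_one
        rw [one_mul] at h3
        have h5 := h2.trans (add_le_add_right h3 _)
        have h6 : ‖b x‖ * ‖(f (x + (S.a c (Fin.last m) (u1 + j) : ZMod N)) -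
            f (x + (z : ZMod N))) * e (∑ i : Fin m, v x i * (S.t (u1 + j)) ^ (c i.castSucc)) +
            f (x + (z : ZMod N)) * (e (∑ i : Fin m, v x i * (S.t (u1 + j)) ^ (c i.castSucc)) -
            e (∑ i : Fin m, v x i * ((z : ℝ) / P) ^ (c i.castSucc / cl)))‖ ≤ 1 * _ :=
          mul_le_mul (hb x) h5 (norm_nonneg _) zero_le_one
        rw [one_mul] at h6
        exact h6
    calc _ ≤ 𝔼 x, (‖f (x + (S.a c (Fin.last m) (u1 + j) : ZMod N)) - f (x + (z : ZMod N))‖ +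
        2 * Real.pi * (E4 * (1 + C1)) * D ^ (-ε)) := expect_le_expect fun x _ => hterm x
      _ = 𝔼 x, ‖f (x + (S.a c (Fin.last m) (u1 + j) : ZMod N)) - f (x + (z : ZMod N))‖ +
        2 * Real.pi * (E4 * (1 + C1)) * D ^ (-ε) := by
          rw [expect_add_distrib, expect_const univ_nonempty]
      _ ≤ 4 * cl * 4 ^ cl * D ^ (-ε) + 2 * Real.pi * (E4 * (1 + C1)) * D ^ (-ε) :=
          add_le_add_left hfz _
      _ = _ := by rw [hC5]; ring
  obtain ⟨hZl, hZu, hdiff⟩ := gap_change K hK1 α hαmono G Gt hG1 g0 η (C5 * D ^ (-ε)) hg0pos hη0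
    hηhalf hgap hGt
  have hα0K : α 0 ≤ α K := by
    have : (α 0 : ℝ) ≤ α K := by
      have : 0 < g0 * K / 2 := by positivity
      linarith
    exact_mod_cast this
  refine ⟨α 0, α K - α 0, ?_, ?_, ?_, ?_⟩
  · have h1 := hαl 0 (Nat.zero_le _)
    have h2 := htpos 0 (Nat.zero_le _)
    nlinarith only [h1, h2, hP16]
  · have h1 : ((α 0 : ℕ) : ℝ) + ((α K - α 0 : ℕ) : ℝ) = α K := by
      push_cast [hα0K]; ring
    rw [h1]
    refine (hαu K le_rfl).trans ?_
    rw [mul_comm]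
    apply mul_le_mul_of_nonneg_right _ hP0.le
    exact Real.rpow_le_rpow (by linarith [(htmem K le_rfl).1]) (htmem K le_rfl).2 hcl0.le
  · have h1 : ((α K - α 0 : ℕ) : ℝ) = (α K : ℝ) - α 0 := by
      push_cast [hα0K]; ring
    rw [h1]
    refine le_trans ?_ hZl
    calc cl / 16 * (P * D ^ (-ε)) = (P / D * (cl / 4)) * (D ^ (1 - ε) / 2) / 2 := by
          rw [hD1ε]
          field_simp
          ring
      _ ≤ g0 * K / 2 := by
          apply div_le_div_of_nonneg_right _ (by norm_num)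
          exact mul_le_mul hg0l hKl (by positivity) hg0pos.le
  · have h1 : α 0 + (α K - α 0) = α K := by omega
    rw [h1]
    have h2 : 𝔼 x, b x * 𝔼 j ∈ range K, f (x + (S.a c (Fin.last m) (u1 + j) : ZMod N)) *
        e (∑ i : Fin m, v x i * (S.t (u1 + j)) ^ (c i.castSucc)) = 𝔼 j ∈ range K, G j := by
      simp only [hGdef, mul_expect]
      rw [expect_comm]
    have h3 : 𝔼 x, b x * 𝔼 z ∈ Ico (α 0) (α K), f (x + (z : ZMod N)) *
        e (∑ i : Fin m, v x i * ((z : ℝ) / P) ^ (c i.castSucc / cl)) =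
        𝔼 z ∈ Ico (α 0) (α K), Gt z := by
      simp only [hGtdef, mul_expect]
      rw [expect_comm]
    rw [h2, h3]
    have h4 := norm_sub_norm_le (𝔼 j ∈ range K, G j) (𝔼 z ∈ Ico (α 0) (α K), Gt z)
    have h5 : (4 * Cη + C5) * D ^ (-ε) = C5 * D ^ (-ε) + 4 * η := by rw [hη]; ring
    rw [h5]
    linarith

end

end Pool.Agent.Helper41.NX
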