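import Pool.Agent.Helper41.NX.Gap

/-!
# Project NX, module NX-19, part C: the pair estimate
-/

set_option autoImplicit false

open Finset
open scoped BigOperators ComplexConjugate

namespace Pool.Agent.Helper41.NX

open Pool.Agent.Helper57.NX

noncomputable section

theorem norm_expect_e_sub_le (s : Finset ℕ) (φ ψ : ℕ → ℝ) (η : ℝ) (hη : 0 ≤ η)
    (h : ∀ z ∈ s, |φ z - ψ z| ≤ η) :
    ‖𝔼 z ∈ s, e (φ z)‖ ≤ ‖𝔼 z ∈ s, e (ψ z)‖ + 2 * Real.pi * η := by
  have h1 : ‖𝔼 z ∈ s, e (φ z) - 𝔼 z ∈ s, e (ψ z)‖ ≤ 2 * Real.pi * η := by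
    rw [← expect_sub_distrib]
    refine norm_expect_le_of5 s _ (by positivity) fun z hz => ?_
    refine (norm_e_sub_e_le _ _).trans ?_
    exact mul_le_mul_of_nonneg_left (h z hz) (by positivity)
  have h2 := norm_sub_norm_le (𝔼 z ∈ s, e (φ z)) (𝔼 z ∈ s, e (ψ z))
  linarith

theorem pair_bound (hES : ES0) (m : ℕ) (g : Fin m → ℝ) (hg0 : ∀ i, 0 < g i) (hg1 : ∀ i, g i < 1)
    (hginj : Function.Injective g) (b : ℝ) (hb : 1 ≤ b) (ε : ℝ) (hε : 0 < ε) :
    ∃ xE : ℝ, 0 < xE ∧ ∃ σE : ℝ, 0 < σE ∧ ∃ P0 : ℝ, ∃ C : ℝ, 0 < C ∧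
    ∀ P : ℝ, P0 ≤ P → ∀ V : ℝ, 0 ≤ V → V ≤ P / 4 → ∀ v v' : Fin m → ℝ, (∀ i, |v i| ≤ V) →
    (∀ i, |v' i| ≤ V) → ∀ lam : ℝ, 0 < lam → (∃ i, lam ≤ |v i|) →
    ∀ z0 Z : ℕ, 3 / 4 * P ≤ z0 → (z0 : ℝ) + Z ≤ b * P → P ^ (1 - xE) ≤ Z →
    ∀ h h' H : ℝ, 0 ≤ h → h ≤ H → 0 ≤ h' → h' ≤ H → H ≤ P / 4 →
    C * (P ^ ε * P / lam) < |h - h'| →
    ‖𝔼 z ∈ Ico z0 (z0 + Z), e (∑ i, v i * (((z : ℝ) - h) / P) ^ (g i) -
      ∑ i, v' i * (((z : ℝ) - h') / P) ^ (g i))‖ ≤ C * P ^ (-σE) + C * (V * (H / P) ^ 2) := by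
  -- constants
  have hT : ∀ i, ∃ C : ℝ, 0 < C ∧ ∀ x ∈ Set.Icc (1 / 2) b, ∀ y ∈ Set.Icc (1 / 2) b,
      |x ^ (g i) - y ^ (g i) - g i * y ^ (g i - 1) * (x - y)| ≤ C * (x - y) ^ 2 := fun i =>
    rpow_taylor (g i) (1 / 2) b (by norm_num)
  choose CT hCT0 hCT using hT
  let γ : Fin (m + m) → ℝ := Fin.append g (fun i => g i - 1)
  have hγl : ∀ i : Fin m, γ (Fin.castAdd m i) = g i := fun i => Fin.append_left _ _ i
  have hγr : ∀ i : Fin m, γ (Fin.natAdd m i) = g i - 1 := fun i => Fin.append_right _ _ i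
  have hγinj : Function.Injective γ := by
    intro i j
    refine Fin.addCases (fun i => ?_) (fun i => ?_) i <;>
      refine Fin.addCases (fun j => ?_) (fun j => ?_) j
    · rw [hγl, hγl]
      intro h
      rw [hginj h]
    · rw [hγl, hγr]
      intro h
      have := hg0 i
      have := hg1 j
      linarith
    · rw [hγr, hγl]
      intro h
      have := hg1 i
      have := hg0 j
      linarith
    · rw [hγr, hγr]
      intro h
      rw [hginj (by linarith : g i = g j)]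
  have hγn : ∀ i (n : ℕ), γ i ≠ n := by
    intro i n
    refine Fin.addCases (fun i => ?_) (fun i => ?_) i
    · rw [hγl]
      intro h
      have h0 := hg0 i
      have h1 := hg1 i
      rw [h] at h0 h1
      have h2 : 0 < n := by exact_mod_cast h0
      have h3 : n < 1 := by exact_mod_cast h1
      omega
    · rw [hγr]
      intro h
      have h1 := hg1 i
      have h2 : (0 : ℝ) ≤ n := by positivity
      linarith
  obtain ⟨x0, hx0, σ, hσ, D0, hmain⟩ := hES (m + m) 0 γ hγinj hγn (2 * b) 1 ε (by linarith) hε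
  set xE : ℝ := min x0 (1 / 2) with hxE
  have hxE0 : 0 < xE := lt_min hx0 (by norm_num)
  refine ⟨xE, hxE0, σ, hσ, max (2 * D0) 2, ∑ i, 1 / g i + 1 + 2 ^ σ + 4 * Real.pi * ∑ i, CT i, ?_,
    ?_⟩
  · have h1 : 0 ≤ ∑ i, 1 / g i := sum_nonneg fun i _ => (div_pos one_pos (hg0 i)).le
    have h2 : 0 ≤ ∑ i, CT i := sum_nonneg fun i _ => (hCT0 i).le
    have h3 : (0 : ℝ) < 2 ^ σ := by positivity
    positivity
  intro P hP V hV0 hV v v' hv hv' lam hlam hex z0 Z hz0 hzZ hZ h h' H hh0 hhH hh'0 hh'H hH hclose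
  have hS1 : 0 ≤ ∑ i, 1 / g i := sum_nonneg fun i _ => (div_pos one_pos (hg0 i)).le
  have hS2 : 0 ≤ ∑ i, CT i := sum_nonneg fun i _ => (hCT0 i).le
  have h2σ : (0 : ℝ) < 2 ^ σ := by positivity
  have hP2 : 2 ≤ P := (le_max_right _ _).trans hP
  have hP0 : 0 < P := by linarith
  have hPD : D0 ≤ P / 2 := by
    have := (le_max_left (2 * D0) 2).trans hP
    linarith
  have hH0 : 0 ≤ H := hh0.trans hhH
  set D : ℝ := P / 2 with hD
  have hD1 : 1 ≤ D := by rw [hD]; linarith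
  have hD0 : 0 < D := by linarith
  -- coefficients
  let A : Fin m → ℝ := fun i => v i - v' i
  let B : Fin m → ℝ := fun i => -(g i * (v i * h - v' i * h') / P)
  -- Taylor
  have hpi := Real.pi_pos
  have step1 : ∀ z ∈ Ico z0 (z0 + Z), |(∑ i, v i * (((z : ℝ) - h) / P) ^ (g i) -
      ∑ i, v' i * (((z : ℝ) - h') / P) ^ (g i)) -
      (∑ i, A i * ((z : ℝ) / P) ^ (g i) + ∑ i, B i * ((z : ℝ) / P) ^ (g i - 1))| ≤
      2 * (∑ i, CT i) * (V * (H / P) ^ 2) := by
    intro z hz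
    rw [mem_Ico] at hz
    have hz1 : (z0 : ℝ) ≤ z := by exact_mod_cast hz.1
    have hz2 : (z : ℝ) ≤ z0 + Z := by exact_mod_cast hz.2.le
    have hy : (z : ℝ) / P ∈ Set.Icc (1 / 2) b := by
      constructor
      · rw [le_div_iff₀ hP0]; linarith
      · rw [div_le_iff₀ hP0]; linarith
    have hx : ∀ t : ℝ, 0 ≤ t → t ≤ H → ((z : ℝ) - t) / P ∈ Set.Icc (1 / 2) b := by
      intro t ht0 htH
      constructor
      · rw [le_div_iff₀ hP0]; linarith
      · rw [div_le_iff₀ hP0]; linarith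
    have hone : ∀ i, ∀ t : ℝ, 0 ≤ t → t ≤ H → |(((z : ℝ) - t) / P) ^ (g i) - ((z : ℝ) / P) ^ (g i) +
        g i * ((z : ℝ) / P) ^ (g i - 1) * (t / P)| ≤ CT i * (H / P) ^ 2 := by
      intro i t ht0 htH
      have h1 := hCT i _ (hx t ht0 htH) _ hy
      have h2 : ((z : ℝ) - t) / P - (z : ℝ) / P = -(t / P) := by ring
      rw [h2] at h1
      have h3 : (((z : ℝ) - t) / P) ^ (g i) - ((z : ℝ) / P) ^ (g i) +
        g i * ((z : ℝ) / P) ^ (g i - 1) * (t / P) = (((z : ℝ) - t) / P) ^ (g i) -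
        ((z : ℝ) / P) ^ (g i) - g i * ((z : ℝ) / P) ^ (g i - 1) * -(t / P) := by ring
      rw [h3]
      refine h1.trans ?_
      apply mul_le_mul_of_nonneg_left _ (hCT0 i).le
      rw [neg_sq]
      apply pow_le_pow_left₀ (by positivity)
      exact div_le_div_of_nonneg_right htH hP0.le
    have hsplit : (∑ i, v i * (((z : ℝ) - h) / P) ^ (g i) -
      ∑ i, v' i * (((z : ℝ) - h') / P) ^ (g i)) -
      (∑ i, A i * ((z : ℝ) / P) ^ (g i) + ∑ i, B i * ((z : ℝ) / P) ^ (g i - 1)) =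
      ∑ i, (v i * ((((z : ℝ) - h) / P) ^ (g i) - ((z : ℝ) / P) ^ (g i) +
        g i * ((z : ℝ) / P) ^ (g i - 1) * (h / P)) -
        v' i * ((((z : ℝ) - h') / P) ^ (g i) - ((z : ℝ) / P) ^ (g i) +
        g i * ((z : ℝ) / P) ^ (g i - 1) * (h' / P))) := by
      rw [← sum_sub_distrib, ← sum_add_distrib, ← sum_sub_distrib]
      refine sum_congr rfl fun i _ => ?_
      simp only [A, B]
      ring
    rw [hsplit]
    refine (abs_sum_le_sum_abs _ _).trans ?_
    calc _ ≤ ∑ i, 2 * (CT i) * (V * (H / P) ^ 2) := by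
          refine sum_le_sum fun i _ => ?_
          refine (abs_sub _ _).trans ?_
          rw [abs_mul, abs_mul]
          have h4 := mul_le_mul (hv i) (hone i h hh0 hhH) (abs_nonneg _) hV0
          have h5 := mul_le_mul (hv' i) (hone i h' hh'0 hh'H) (abs_nonneg _) hV0
          linarith
      _ = _ := by rw [← sum_mul, ← mul_sum]
  have step2 := norm_expect_e_sub_le (Ico z0 (z0 + Z))
    (fun z => ∑ i, v i * (((z : ℝ) - h) / P) ^ (g i) - ∑ i, v' i * (((z : ℝ) - h') / P) ^ (g i))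
    (fun z => ∑ i, A i * ((z : ℝ) / P) ^ (g i) + ∑ i, B i * ((z : ℝ) / P) ^ (g i - 1))
    (2 * (∑ i, CT i) * (V * (H / P) ^ 2)) (by positivity) step1
  refine step2.trans ?_
  -- the exponential sum
  let v2 : Fin (m + m) → ℝ := Fin.append (fun i => A i * 2 ^ (-(g i)))
    (fun i => B i * 2 ^ (-(g i - 1)))
  have hv2l : ∀ i : Fin m, v2 (Fin.castAdd m i) = A i * 2 ^ (-(g i)) := fun i =>
    Fin.append_left _ _ i
  have hv2r : ∀ i : Fin m, v2 (Fin.natAdd m i) = B i * 2 ^ (-(g i - 1)) := fun i =>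
    Fin.append_right _ _ i
  have hA : ∀ i, |A i| ≤ 2 * V := fun i => by
    refine (abs_sub _ _).trans ?_
    linarith [hv i, hv' i]
  have hBh : ∀ i, |v i * h - v' i * h'| ≤ 2 * V * H := fun i => by
    refine (abs_sub _ _).trans ?_
    rw [abs_mul, abs_mul, abs_of_nonneg hh0, abs_of_nonneg hh'0]
    have h4 := mul_le_mul (hv i) hhH hh0 hV0
    have h5 := mul_le_mul (hv' i) hh'H hh'0 hV0
    linarith
  have hBeq : ∀ i, |B i| = g i * |v i * h - v' i * h'| / P := fun i => by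
    simp only [B]
    rw [abs_neg, abs_div, abs_mul, abs_of_pos (hg0 i), abs_of_pos hP0]
  have hB : ∀ i, |B i| ≤ V := fun i => by
    rw [hBeq, div_le_iff₀ hP0]
    have h6 := hBh i
    have h7 : 2 * V * H ≤ V * P := by nlinarith
    have h8 : g i * |v i * h - v' i * h'| ≤ 1 * |v i * h - v' i * h'| :=
      mul_le_mul_of_nonneg_right (hg1 i).le (abs_nonneg _)
    linarith
  have h2g : ∀ i, (2 : ℝ) ^ (-(g i)) ≤ 1 := fun i =>
    Real.rpow_le_one_of_one_le_of_nonpos (by norm_num) (by linarith [hg0 i])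
  have h2g' : ∀ i, (2 : ℝ) ^ (-(g i - 1)) ≤ 2 := fun i => by
    calc (2 : ℝ) ^ (-(g i - 1)) ≤ 2 ^ (1 : ℝ) :=
          Real.rpow_le_rpow_of_exponent_le (by norm_num) (by linarith [hg0 i])
      _ = 2 := by rw [Real.rpow_one]
  have h2gl : ∀ i, 1 / 2 ≤ (2 : ℝ) ^ (-(g i)) := fun i => by
    calc (1 / 2 : ℝ) = 2 ^ (-1 : ℝ) := by
          rw [Real.rpow_neg_one]; norm_num
      _ ≤ _ := Real.rpow_le_rpow_of_exponent_le (by norm_num) (by linarith [hg1 i])
  have h2gl' : ∀ i, 1 ≤ (2 : ℝ) ^ (-(g i - 1)) := fun i =>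
    Real.one_le_rpow (by norm_num) (by linarith [hg1 i])
  have hbound : ∀ i, |v2 i| ≤ D ^ (1 : ℝ) := by
    intro i
    rw [Real.rpow_one]
    refine Fin.addCases (fun i => ?_) (fun i => ?_) i
    · rw [hv2l, abs_mul, abs_of_pos (by positivity : (0 : ℝ) < 2 ^ (-(g i)))]
      have h9 := mul_le_mul (hA i) (h2g i) (by positivity) (by positivity)
      rw [hD]
      linarith
    · rw [hv2r, abs_mul, abs_of_pos (by positivity : (0 : ℝ) < 2 ^ (-(g i - 1)))]
      have h9 := mul_le_mul (hB i) (h2g' i) (by positivity) (by positivity)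
      rw [hD]
      linarith
  have hlarge : ∃ i, D ^ ε ≤ |v2 i| := by
    by_contra hno
    push Not at hno
    obtain ⟨i, hi⟩ := hex
    have hWpos : 0 < D ^ ε := by positivity
    have h1 := hno (Fin.castAdd m i)
    have h2 := hno (Fin.natAdd m i)
    rw [hv2l, abs_mul, abs_of_pos (by positivity : (0 : ℝ) < 2 ^ (-(g i)))] at h1
    rw [hv2r, abs_mul, abs_of_pos (by positivity : (0 : ℝ) < 2 ^ (-(g i - 1)))] at h2
    have hA' : |A i| ≤ 2 * D ^ ε := by
      have := mul_le_mul_of_nonneg_left (h2gl i) (abs_nonneg (A i))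
      linarith
    have hB' : |B i| ≤ D ^ ε := by
      have := mul_le_mul_of_nonneg_left (h2gl' i) (abs_nonneg (B i))
      linarith
    have h3 : |h - h'| * lam ≤ (∑ i, 1 / g i + 1) * (D ^ ε * P) := by
      have h4 : |h - h'| * lam ≤ |h - h'| * |v i| := mul_le_mul_of_nonneg_left hi (abs_nonneg _)
      have h5 : |h - h'| * |v i| = |(v i * h - v' i * h') + -(A i * h')| := by
        rw [← abs_mul]
        congr 1
        simp only [A]
        ring
      have h6 : |(v i * h - v' i * h') + -(A i * h')| ≤ |v i * h - v' i * h'| + |A i| * |h'| := by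
        refine (abs_add_le _ _).trans ?_
        rw [abs_neg, abs_mul]
      have h7 : |v i * h - v' i * h'| = (1 / g i) * (|B i| * P) := by
        have h70 := (hg0 i).ne'
        rw [hBeq i]
        field_simp
      have h8 : |A i| * |h'| ≤ 2 * D ^ ε * (P / 4) := by
        rw [abs_of_nonneg hh'0]
        exact mul_le_mul hA' (hh'H.trans hH) hh'0 (by positivity)
      have h9 : (1 / g i) * (|B i| * P) ≤ (∑ i, 1 / g i) * (D ^ ε * P) := by
        apply mul_le_mul _ (mul_le_mul_of_nonneg_right hB' hP0.le) (by positivity) hS1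
        exact single_le_sum (f := fun i => 1 / g i) (fun j _ => (div_pos one_pos (hg0 j)).le)
          (mem_univ i)
      have h10 : 0 ≤ D ^ ε * P := by positivity
      linarith
    have h11 : |h - h'| ≤ (∑ i, 1 / g i + 1) * (P ^ ε * P / lam) := by
      have h12 : D ^ ε ≤ P ^ ε := Real.rpow_le_rpow hD0.le (by rw [hD]; linarith) hε.le
      have h13 : (∑ i, 1 / g i + 1) * (D ^ ε * P) ≤ (∑ i, 1 / g i + 1) * (P ^ ε * P) := by
        apply mul_le_mul_of_nonneg_left _ (by linarith)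
        exact mul_le_mul_of_nonneg_right h12 hP0.le
      have h14 : |h - h'| ≤ ((∑ i, 1 / g i + 1) * (P ^ ε * P)) / lam := by
        rw [le_div_iff₀ hlam]
        exact h3.trans h13
      rw [mul_div_assoc] at h14
      exact h14
    have h15 : (∑ i, 1 / g i + 1) * (P ^ ε * P / lam) ≤
        (∑ i, 1 / g i + 1 + 2 ^ σ + 4 * Real.pi * ∑ i, CT i) * (P ^ ε * P / lam) := by
      apply mul_le_mul_of_nonneg_right _ (by positivity)
      have : 0 ≤ 4 * Real.pi * ∑ i, CT i := by positivity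
      linarith
    linarith
  have hT' : D ^ (1 - x0) ≤ Z := by
    have h1 : D ^ (1 - x0) ≤ D ^ (1 - xE) :=
      Real.rpow_le_rpow_of_exponent_le hD1 (by linarith [min_le_left x0 (1 / 2)])
    have h2 : D ^ (1 - xE) ≤ P ^ (1 - xE) :=
      Real.rpow_le_rpow hD0.le (by rw [hD]; linarith) (by linarith [min_le_right x0 (1 / 2)])
    linarith
  have hes := hmain D hPD 0 le_rfl zero_le_one v2 hbound hlarge 0 (by simp) z0 Z
    (by rw [hD]; linarith) (by rw [hD]; linarith) hT'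
  have hphase : ∀ z ∈ Ico z0 (z0 + Z), ∑ i, v2 i * (((z : ℝ) + 0) / D) ^ (γ i) +
      Polynomial.eval (z : ℝ) (0 : Polynomial ℝ) =
      ∑ i, A i * ((z : ℝ) / P) ^ (g i) + ∑ i, B i * ((z : ℝ) / P) ^ (g i - 1) := by
    intro z _
    rw [Polynomial.eval_zero, add_zero, Fin.sum_univ_add]
    have hzD : ((z : ℝ) + 0) / D = 2 * ((z : ℝ) / P) := by
      rw [hD]
      field_simp
      ring
    have hpow : ∀ s : ℝ, (2 : ℝ) ^ (-s) * (2 * ((z : ℝ) / P)) ^ s = ((z : ℝ) / P) ^ s := by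
      intro s
      rw [Real.mul_rpow (by norm_num) (by positivity), ← mul_assoc, ← Real.rpow_add (by norm_num)]
      simp
    congr 1
    · refine sum_congr rfl fun i _ => ?_
      rw [hv2l, hγl, hzD, mul_assoc, hpow]
    · refine sum_congr rfl fun i _ => ?_
      rw [hv2r, hγr, hzD, mul_assoc, hpow]
  rw [expect_congr rfl fun z hz => by rw [hphase z hz]] at hes
  have h16 : D ^ (-σ) = 2 ^ σ * P ^ (-σ) := by
    rw [hD, Real.div_rpow hP0.le (by norm_num), Real.rpow_neg (by norm_num : (0 : ℝ) ≤ 2)]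
    field_simp
  rw [h16] at hes
  have h17 : 0 < P ^ (-σ) := by positivity
  have h18 : 0 ≤ V * (H / P) ^ 2 := by positivity
  have h19 : 2 ^ σ * P ^ (-σ) ≤
      (∑ i, 1 / g i + 1 + 2 ^ σ + 4 * Real.pi * ∑ i, CT i) * P ^ (-σ) := by
    apply mul_le_mul_of_nonneg_right _ h17.le
    have : 0 ≤ 4 * Real.pi * ∑ i, CT i := by positivity
    linarith
  have h20 : 2 * Real.pi * (2 * (∑ i, CT i) * (V * (H / P) ^ 2)) ≤
      (∑ i, 1 / g i + 1 + 2 ^ σ + 4 * Real.pi * ∑ i, CT i) * (V * (H / P) ^ 2) := by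
    have : 2 * Real.pi * (2 * (∑ i, CT i) * (V * (H / P) ^ 2)) =
        (4 * Real.pi * ∑ i, CT i) * (V * (H / P) ^ 2) := by ring
    rw [this]
    apply mul_le_mul_of_nonneg_right _ h18
    linarith
  linarith

end

end Pool.Agent.Helper41.NX
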