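import Pool.Agent.Helper41.NX.TTStar
import Pool.Agent.Helper41.NX.PairBound
import Pool.Agent.Helper41.NX.Conv

/-!
# Project NX, module NX-19: base, one class of phases (TT*)
-/

set_option autoImplicit false

open Finset
open scoped BigOperators ComplexConjugate

namespace Pool.Agent.Helper57.NX

open Pool.Agent.Helper41.NX

noncomputable section

theorem ev_le41 (C a b : ℝ) (hab : a < b) :
    ∀ᶠ D : ℝ in Filter.atTop, C * D ^ a ≤ D ^ b := by
  have h1 := (tendsto_rpow_atTop (sub_pos.2 hab)).eventually_ge_atTop C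
  filter_upwards [h1, Filter.eventually_gt_atTop 0] with D hD hD0
  calc C * D ^ a ≤ D ^ (b - a) * D ^ a := mul_le_mul_of_nonneg_right hD (by positivity)
    _ = D ^ b := by rw [← Real.rpow_add hD0]; ring_nf

theorem base_class (hES : ES0) (m : ℕ) (c : Fin (m + 1) → ℝ) (hc : StrictMono c)
    (hc0 : ∀ i, 0 < c i) : ∀ ε2 : ℝ, 0 < ε2 → ∃ ε1 : ℝ, 0 < ε1 ∧ ∀ ε : ℝ, 0 < ε → ε ≤ ε1 →
    ∃ x0 : ℝ, 0 < x0 ∧ ∃ σ : ℝ, 0 < σ ∧ ∃ D0 : ℝ,
    ∀ (S : Sys (m + 1)) (N : ℕ) [NeZero N], D0 ≤ S.D → Good S c N x0 →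
    ∀ X : ℝ, S.Q * S.D ^ (c (Fin.last m) - 1 / 4) ≤ X →
    ∀ f : ZMod N → ℂ, Adm (S.D ^ σ) X f →
    ∀ (θ : ZMod N → Fin m → ℝ) (lam : ℝ), S.D ^ ε2 ≤ lam → lam ^ (7 / 6 : ℝ) ≤ S.D ^ (1 / 3 : ℝ) →
    ∀ E : Finset (ZMod N), (∀ x ∈ E, (∀ i, |θ x i * S.P i.castSucc| ≤ lam ^ (7 / 6 : ℝ)) ∧
      ∃ i, lam ≤ |θ x i * S.P i.castSucc|) →
    ∀ K : ℕ, S.D ^ (1 - ε) ≤ (K : ℝ) + 1 → (K : ℝ) ≤ S.D ^ (1 - ε) →
    𝔼 x, (if x ∈ E then locCorr S c f θ K x else 0) ≤ S.D ^ (-σ) := by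
  intro ε2 hε2
  set cl : ℝ := c (Fin.last m) with hcl
  have hcl0 : 0 < cl := hc0 _
  set g : Fin m → ℝ := fun i => c i.castSucc / cl with hg
  have hg0 : ∀ i, 0 < g i := fun i => div_pos (hc0 _) hcl0
  have hg1 : ∀ i, g i < 1 := fun i => by
    rw [hg]
    simp only
    rw [div_lt_one hcl0]
    exact hc (Fin.castSucc_lt_last i)
  have hginj : Function.Injective g := by
    intro i j hij
    simp only [hg] at hij
    have h1 : c i.castSucc = c j.castSucc := by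
      field_simp at hij
      exact hij
    exact Fin.castSucc_injective m (hc.injective h1)
  have h4 : (1 : ℝ) ≤ 4 ^ cl := Real.one_le_rpow (by norm_num) hcl0.le
  set kap : ℝ := ε2 / 8 with hkap
  have hkap0 : 0 < kap := by positivity
  obtain ⟨xE, hxE0, σE, hσE0, P0, CE, hCE0, hpair⟩ :=
    pair_bound hES m g hg0 hg1 hginj (4 ^ cl) h4 (kap / (cl + 4)) (by positivity)
  obtain ⟨CC, hCC0, hconv⟩ := base_conv m c hc0
  refine ⟨min (min xE ε2) (1 / 2) / 8, by positivity, fun ε hε hεε1 => ?_⟩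
  have hεxE : ε ≤ xE / 8 := hεε1.trans (div_le_div_of_nonneg_right
    ((min_le_left _ _).trans (min_le_left _ _)) (by norm_num))
  have hεε2 : ε ≤ ε2 / 8 := hεε1.trans (div_le_div_of_nonneg_right
    ((min_le_left _ _).trans (min_le_right _ _)) (by norm_num))
  have hε12 : ε ≤ 1 / 2 / 8 := hεε1.trans (div_le_div_of_nonneg_right
    (min_le_right _ _) (by norm_num))
  set x0 : ℝ := min cl (1 / 8) with hx0
  have hx00 : 0 < x0 := by positivity
  set σ : ℝ := min (min (ε / 4) (1 / 32)) (min (ε2 / 64) (σE / 4)) with hσ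
  have hσ0 : 0 < σ := by positivity
  have hσ1 : σ ≤ ε / 4 := (min_le_left _ _).trans (min_le_left _ _)
  have hσ2 : σ ≤ 1 / 32 := (min_le_left _ _).trans (min_le_right _ _)
  have hσ3 : σ ≤ ε2 / 64 := (min_le_right _ _).trans (min_le_left _ _)
  have hσ4 : σ ≤ σE / 4 := (min_le_right _ _).trans (min_le_right _ _)
  have e1 := ev_le41 (4 * CC) (-ε) (-σ) (by linarith)
  have e2 := ev_le41 (128 / cl) (ε - 2 * ε2 / 3) (-σ) (by linarith)
  have e3 := ev_le41 (128 * CE) (kap - ε2 / 3) (-(2 * σ)) (by rw [hkap]; linarith)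
  have e4 := ev_le41 32 (-1) (-(2 * σ)) (by linarith)
  have e5 := ev_le41 (16 * CE) (-σE) (-(2 * σ)) (by linarith)
  have e6 := ev_le41 (16 * CE) (-(ε2 / 6)) (-(2 * σ)) (by linarith)
  have e7 := Filter.eventually_ge_atTop P0
  have e8 := Filter.eventually_ge_atTop (4 : ℝ)
  have e9 := ev_le41 (16 / cl) (-xE) (-ε) (by linarith)
  have e10 := ev_le41 4 0 (2 * ε2 / 3) (by positivity)
  have e11 := ev_le41 2 0 (1 - ε) (by linarith)
  obtain ⟨D0, hD0⟩ := Filter.eventually_atTop.mp (e1.and (e2.and (e3.and (e4.and (e5.and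
    (e6.and (e7.and (e8.and (e9.and (e10.and e11))))))))))
  refine ⟨x0, hx00, σ, hσ0, D0, ?_⟩
  intro S N _ hDD hG X hX f hf θ lam hlam1 hlam2 E hE K hK1 hK2
  obtain ⟨f1, f2, f3, f4, f5, f6, f7, f8, f9, f10, f11⟩ := hD0 S.D hDD
  clear e1 e2 e3 e4 e5 e6 e7 e8 e9 e10 e11 hD0
  set D : ℝ := S.D with hD
  have h10 : 4 ≤ D ^ (2 * ε2 / 3) := by
    rw [Real.rpow_zero, mul_one] at f10
    exact f10
  have h11 : 2 ≤ D ^ (1 - ε) := by
    rw [Real.rpow_zero, mul_one] at f11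
    exact f11
  clear f10 f11
  have hDpos : 0 < D := by linarith
  have hD1 : 1 ≤ D := by linarith
  set P : ℝ := S.P (Fin.last m) with hP
  have hQ0 : (0 : ℝ) < S.Q := lt_of_lt_of_le (by positivity) hG.Q1
  have hPl : S.Q * D ^ (cl - x0) ≤ P := hG.P1 (Fin.last m)
  have hPu : P ≤ S.Q * D ^ (cl + x0) := hG.P2 (Fin.last m)
  have hx0c : x0 ≤ cl := min_le_left _ _
  have hx08 : x0 ≤ 1 / 8 := min_le_right _ _
  have hPD2 : D * D ≤ P := by
    have h1 : (1 : ℝ) ≤ D ^ (cl - x0) := Real.one_le_rpow hD1 (by linarith)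
    have h2 : D * D = D ^ (2 : ℝ) := by rw [Real.rpow_two]; ring
    calc D * D = D ^ (2 : ℝ) := h2
      _ ≤ S.Q := hG.Q1
      _ ≤ S.Q * D ^ (cl - x0) := le_mul_of_one_le_right hQ0.le h1
      _ ≤ P := hPl
  have hPD : D ≤ P := by nlinarith only [hPD2, f8]
  have hPpos : 0 < P := by linarith
  have hPup : P ≤ D ^ (cl + 4) := by
    calc P ≤ S.Q * D ^ (cl + x0) := hPu
      _ ≤ D ^ (3 : ℝ) * D ^ (cl + x0) := mul_le_mul_of_nonneg_right hG.Q2 (by positivity)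
      _ = D ^ (3 + (cl + x0)) := (Real.rpow_add hDpos _ _).symm
      _ ≤ D ^ (cl + 4) := Real.rpow_le_rpow_of_exponent_le hD1 (by linarith)
  -- lam
  have hlam_1 : 1 ≤ lam := (Real.one_le_rpow hD1 hε2.le).trans hlam1
  have hlam0 : 0 < lam := by linarith
  have hlamD : lam ≤ D ^ (1 / 3 : ℝ) := by
    refine le_trans ?_ hlam2
    calc lam = lam ^ (1 : ℝ) := (Real.rpow_one _).symm
      _ ≤ lam ^ (7 / 6 : ℝ) := Real.rpow_le_rpow_of_exponent_le hlam_1 (by norm_num)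
  by_contra hcon
  push Not at hcon
  -- choose k
  have hTpos : 0 < S.T := by
    have h1 : 0 < D ^ (1 - x0) := by positivity
    have h2 : (0 : ℝ) < S.T := h1.trans_le hG.T1
    exact_mod_cast h2
  have hIne : S.I.Nonempty := ⟨S.u, by rw [Sys.I, mem_Ico]; omega⟩
  have hswap : 𝔼 x, (if x ∈ E then locCorr S c f θ K x else 0) =
      𝔼 k ∈ S.I, 𝔼 x, (if x ∈ E then ‖𝔼 j ∈ range K, f (x + (S.a c (Fin.last m) (k + j) :
        ZMod N)) * e (∑ i : Fin m, θ x i * S.P i.castSucc * (S.t (k + j)) ^ (c i.castSucc))‖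
        else 0) := by
    rw [expect_comm]
    refine expect_congr rfl fun x _ => ?_
    split_ifs with hx
    · rfl
    · rw [expect_const hIne]
  rw [hswap] at hcon
  obtain ⟨u1, hu1, hcon1⟩ := exists_le_of_le_expect hIne hcon.le
  set v : ZMod N → Fin m → ℝ := fun x i => θ x i * S.P i.castSucc with hv
  set W : ZMod N → ℂ := fun x => 𝔼 j ∈ range K, f (x + (S.a c (Fin.last m) (u1 + j) :
        ZMod N)) * e (∑ i : Fin m, v x i * (S.t (u1 + j)) ^ (c i.castSucc)) with hW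
  set b : ZMod N → ℂ := fun x => if x ∈ E then conj (W x) / (‖W x‖ : ℂ) else 0 with hbdef
  have hb : ∀ x, ‖b x‖ ≤ 1 := by
    intro x
    simp only [hbdef]
    split_ifs
    · rw [norm_div, RCLike.norm_conj, Complex.norm_real, norm_norm]
      exact div_self_le_one _
    · simp
  have hbE : ∀ x, x ∉ E → b x = 0 := fun x hx => if_neg hx
  have hbW : ∀ x, b x * W x = ((if x ∈ E then ‖W x‖ else 0 : ℝ) : ℂ) := by
    intro x
    simp only [hbdef]
    split_ifs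
    · rw [div_mul_eq_mul_div, mul_comm, Complex.mul_conj']
      by_cases h0 : ‖W x‖ = 0
      · rw [h0]; simp
      · have h1 : (‖W x‖ : ℂ) ≠ 0 := by exact_mod_cast h0
        field_simp
    · simp
  have hnorm : D ^ (-σ) ≤ ‖𝔼 x, b x * W x‖ := by
    have h1 : 𝔼 x, b x * W x = ((𝔼 x, (if x ∈ E then ‖W x‖ else 0 : ℝ) : ℝ) : ℂ) := by
      simp only [hbW]
      rw [expect_eq_sum_div_card, expect_eq_sum_div_card]
      push_cast
      rfl
    rw [h1, Complex.norm_real]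
    exact hcon1.trans (le_abs_self _)
  -- K
  have hKl : D ^ (1 - ε) / 2 ≤ (K : ℝ) := by linarith
  have hKone : 1 ≤ K := by
    have : (1 : ℝ) ≤ K := by linarith
    exact_mod_cast this
  -- conversion
  have hDσ0 : 0 < D ^ (-σ) := by positivity
  have hDσ1 : D ^ (-σ) ≤ 1 := Real.rpow_le_one_of_one_le_of_nonpos hD1 (by linarith)
  obtain ⟨z0, Z, hz0, hzZ, hZl, hmain⟩ := hconv ε hε (by linarith) S N x0 hx0c hx08 hG f8
    (by linarith) σ hσ0.le (by linarith) X hX f hf b hb (lam ^ (7 / 6 : ℝ)) (by positivity)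
    hlam2 v (fun x hx i => by
      have hxE : x ∈ E := by
        by_contra hxE
        exact hx (hbE x hxE)
      exact (hE x hxE).1 i) K hKone hK2 hKl u1 hu1
  -- H
  set H : ℕ := ⌊P * lam ^ (-(2 / 3) : ℝ)⌋₊ with hH
  set y : ℝ := P * lam ^ (-(2 / 3) : ℝ) with hy
  have hy0 : 0 < y := by positivity
  have hlam23 : lam ^ (2 / 3 : ℝ) ≤ D ^ (1 / 3 : ℝ) := by
    refine le_trans ?_ hlamD
    calc lam ^ (2 / 3 : ℝ) ≤ lam ^ (1 : ℝ) :=
          Real.rpow_le_rpow_of_exponent_le hlam_1 (by norm_num)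
      _ = lam := Real.rpow_one _
  have hD13 : D ^ (1 / 3 : ℝ) ≤ D := by
    calc D ^ (1 / 3 : ℝ) ≤ D ^ (1 : ℝ) := Real.rpow_le_rpow_of_exponent_le hD1 (by norm_num)
      _ = D := Real.rpow_one _
  have hyD : D ≤ y := by
    rw [hy, Real.rpow_neg hlam0.le, ← div_eq_mul_inv, le_div_iff₀ (by positivity)]
    calc D * lam ^ (2 / 3 : ℝ) ≤ D * D := mul_le_mul_of_nonneg_left
          (hlam23.trans hD13) hDpos.le
      _ ≤ P := hPD2
  have hHle : (H : ℝ) ≤ y := Nat.floor_le hy0.le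
  have hHge : y / 2 ≤ (H : ℝ) := by
    have h1 : y - 1 < H := Nat.sub_one_lt_floor y
    linarith
  have hHpos : (0 : ℝ) < H := by linarith
  have hH1 : 1 ≤ H := by
    have : 0 < H := by exact_mod_cast hHpos
    omega
  have hyP4 : y ≤ P / 4 := by
    rw [hy, Real.rpow_neg hlam0.le, ← div_eq_mul_inv, div_le_div_iff₀ (by positivity)
      (by norm_num)]
    apply mul_le_mul_of_nonneg_left _ hPpos.le
    calc (4 : ℝ) ≤ D ^ (2 * ε2 / 3) := h10
      _ = (D ^ ε2) ^ (2 / 3 : ℝ) := by rw [← Real.rpow_mul hDpos.le]; ring_nf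
      _ ≤ lam ^ (2 / 3 : ℝ) := Real.rpow_le_rpow (by positivity) hlam1 (by norm_num)
  have hZpos : (0 : ℝ) < Z := lt_of_lt_of_le (by positivity) hZl
  have hZ1 : 1 ≤ Z := by
    have : 0 < Z := by exact_mod_cast hZpos
    omega
  -- 2H/Z
  have hHZ : 2 * (H : ℝ) / Z ≤ D ^ (-σ) / 4 := by
    have h1 : 2 * (H : ℝ) / Z ≤ 2 * y / (cl / 16 * (P * D ^ (-ε))) := by
      apply div_le_div₀ (by positivity) (by linarith) (by positivity) hZl
    have h2 : 2 * y / (cl / 16 * (P * D ^ (-ε))) = 32 / cl * (D ^ ε * lam ^ (-(2 / 3) : ℝ)) := by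
      rw [hy, Real.rpow_neg hDpos.le]
      field_simp
      norm_num
    have h3 : lam ^ (-(2 / 3) : ℝ) ≤ D ^ (-(2 * ε2 / 3)) := by
      calc lam ^ (-(2 / 3) : ℝ) ≤ (D ^ ε2) ^ (-(2 / 3) : ℝ) :=
            Real.rpow_le_rpow_of_nonpos (by positivity) hlam1 (by norm_num)
        _ = D ^ (-(2 * ε2 / 3)) := by rw [← Real.rpow_mul hDpos.le]; ring_nf
    have h5 : D ^ ε * D ^ (-(2 * ε2 / 3)) = D ^ (ε - 2 * ε2 / 3) := by
      rw [← Real.rpow_add hDpos]; ring_nf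
    have h6 : 32 / cl * (D ^ ε * lam ^ (-(2 / 3) : ℝ)) ≤ 32 / cl * D ^ (ε - 2 * ε2 / 3) := by
      rw [← h5]
      apply mul_le_mul_of_nonneg_left _ (by positivity)
      exact mul_le_mul_of_nonneg_left h3 (by positivity)
    have h7 : 32 / cl * D ^ (ε - 2 * ε2 / 3) = (128 / cl * D ^ (ε - 2 * ε2 / 3)) / 4 := by ring
    linarith
  -- TT*
  have hδ : 3 / 4 * D ^ (-σ) ≤ ‖𝔼 x, b x * 𝔼 z ∈ Ico z0 (z0 + Z), f (x + (z : ZMod N)) *
      e ((fun (x : ZMod N) (s : ℝ) => ∑ i : Fin m, v x i * (s / P) ^ (g i)) x z)‖ := by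
    have h1 : 4 * CC * D ^ (-ε) ≤ D ^ (-σ) := f1
    have h2 := hnorm.trans hmain
    have h3 : CC * D ^ (-ε) ≤ D ^ (-σ) / 4 := by linarith
    linarith
  obtain ⟨w, hw⟩ := tt_star f b hf.bdd hb E hbE
    (fun (x : ZMod N) (s : ℝ) => ∑ i : Fin m, v x i * (s / P) ^ (g i)) z0 Z H hZ1 hH1
    (3 / 4 * D ^ (-σ)) (by linarith) hδ
  have hlow : D ^ (-(2 * σ)) / 4 ≤ (3 / 4 * D ^ (-σ) - 2 * H / Z) ^ 2 := by
    have h1 : D ^ (-(2 * σ)) = D ^ (-σ) * D ^ (-σ) := by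
      rw [← Real.rpow_add hDpos]; ring_nf
    rw [h1]
    nlinarith only [hHZ, hDσ0]
  -- pairs
  set R : ℝ := CE * (P ^ (kap / (cl + 4)) * P / lam) with hR
  have hR0 : 0 ≤ R := by positivity
  set V : ℝ := lam ^ (7 / 6 : ℝ) with hV
  have hV0 : 0 ≤ V := by positivity
  have hVP : V ≤ P / 4 := by
    have h1 : V ≤ D := hlam2.trans hD13
    nlinarith only [h1, hPD2, f8]
  set η3 : ℝ := CE * P ^ (-σE) + CE * (V * ((H : ℝ) / P) ^ 2) with hη3
  have hη30 : 0 ≤ η3 := by positivity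
  have hPZ : P ^ (1 - xE) ≤ Z := by
    refine le_trans ?_ hZl
    have h1 : P ^ (1 - xE) = P * P ^ (-xE) := by
      rw [sub_eq_add_neg, Real.rpow_add hPpos, Real.rpow_one]
    have h2 : P ^ (-xE) ≤ D ^ (-xE) :=
      Real.rpow_le_rpow_of_nonpos hDpos hPD (by linarith)
    have h3 : D ^ (-xE) ≤ cl / 16 * D ^ (-ε) := by
      have h30 : 16 / cl * D ^ (-xE) ≤ D ^ (-ε) := f9
      have h31 : D ^ (-xE) = cl / 16 * (16 / cl * D ^ (-xE)) := by field_simp
      rw [h31]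
      exact mul_le_mul_of_nonneg_left h30 (by positivity)
    rw [h1]
    calc P * P ^ (-xE) ≤ P * (cl / 16 * D ^ (-ε)) :=
          mul_le_mul_of_nonneg_left (h2.trans h3) hPpos.le
      _ = _ := by ring
  have hpairs : 𝔼 h ∈ range H, 𝔼 h' ∈ range H,
      (if w + (h : ZMod N) ∈ E ∧ w + (h' : ZMod N) ∈ E then
        ‖𝔼 z ∈ Ico z0 (z0 + Z), e ((fun (x : ZMod N) (s : ℝ) =>
          ∑ i : Fin m, v x i * (s / P) ^ (g i)) (w + (h : ZMod N)) ((z : ℝ) - h) -
          (fun (x : ZMod N) (s : ℝ) => ∑ i : Fin m, v x i * (s / P) ^ (g i))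
            (w + (h' : ZMod N)) ((z : ℝ) - h'))‖ else 0) ≤ (2 * R + 1) / H + η3 := by
    have hne : (range H).Nonempty := ⟨0, by simp; omega⟩
    calc _ ≤ 𝔼 h ∈ range H, 𝔼 h' ∈ range H,
          ((if |(h : ℝ) - h'| ≤ R then (1 : ℝ) else 0) + η3) := by
          refine expect_le_expect fun h hh => expect_le_expect fun h' hh' => ?_
          rw [mem_range] at hh hh'
          split_ifs with h1 h2 h2
          · have h3 : ‖𝔼 z ∈ Ico z0 (z0 + Z), e ((fun (x : ZMod N) (s : ℝ) =>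
              ∑ i : Fin m, v x i * (s / P) ^ (g i)) (w + (h : ZMod N)) ((z : ℝ) - h) -
              (fun (x : ZMod N) (s : ℝ) => ∑ i : Fin m, v x i * (s / P) ^ (g i))
                (w + (h' : ZMod N)) ((z : ℝ) - h'))‖ ≤ 1 :=
              norm_expect_le_of5 _ _ zero_le_one fun z _ => (norm_e _).le
            linarith
          · rw [zero_add]
            push Not at h2
            have hhH : (h : ℝ) ≤ H := by exact_mod_cast hh.le
            have hh'H : (h' : ℝ) ≤ H := by exact_mod_cast hh'.le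
            exact hpair P (f7.trans hPD) V hV0 hVP (v (w + (h : ZMod N))) (v (w + (h' : ZMod N)))
              (hE _ h1.1).1 (hE _ h1.2).1 lam hlam0 (hE _ h1.1).2 z0 Z hz0 hzZ hPZ h h' H
              (by positivity) hhH (by positivity) hh'H (hHle.trans hyP4) h2
          · linarith
          · linarith
      _ = 𝔼 h ∈ range H, 𝔼 h' ∈ range H, (if |(h : ℝ) - h'| ≤ R then (1 : ℝ) else 0) + η3 := by
          simp only [expect_add_distrib, expect_const hne]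
      _ ≤ _ := add_le_add_left (expect_close_le H hH1 R hR0) _
  have hfin := hlow.trans (hw.trans hpairs)
  -- final estimates
  have hPε : P ^ (kap / (cl + 4)) ≤ D ^ kap := by
    calc P ^ (kap / (cl + 4)) ≤ (D ^ (cl + 4)) ^ (kap / (cl + 4)) :=
          Real.rpow_le_rpow hPpos.le hPup (by positivity)
      _ = D ^ kap := by
          rw [← Real.rpow_mul hDpos.le]
          congr 1
          field_simp
  have hRH : (2 * R + 1) / H ≤ 4 * CE * D ^ (kap - ε2 / 3) + 2 * D ^ (-1 : ℝ) := by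
    have h1 : (2 * R + 1) / H ≤ (2 * R + 1) / (y / 2) :=
      div_le_div_of_nonneg_left (by positivity) (by positivity) hHge
    have h2 : (2 * R + 1) / (y / 2) = 4 * R / y + 2 / y := by field_simp; ring
    have h3 : 2 / y ≤ 2 * D ^ (-1 : ℝ) := by
      rw [Real.rpow_neg_one, ← div_eq_mul_inv]
      exact div_le_div_of_nonneg_left (by norm_num) hDpos hyD
    have h5 : lam ^ (2 / 3 : ℝ) / lam ≤ D ^ (-(ε2 / 3)) := by
      calc lam ^ (2 / 3 : ℝ) / lam = lam ^ (-(1 / 3) : ℝ) := by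
            rw [← Real.rpow_sub_one hlam0.ne']; norm_num
        _ ≤ (D ^ ε2) ^ (-(1 / 3) : ℝ) :=
            Real.rpow_le_rpow_of_nonpos (by positivity) hlam1 (by norm_num)
        _ = D ^ (-(ε2 / 3)) := by rw [← Real.rpow_mul hDpos.le]; ring_nf
    have h6 : 4 * R / y = 4 * CE * (P ^ (kap / (cl + 4)) * (lam ^ (2 / 3 : ℝ) / lam)) := by
      rw [hR, hy, Real.rpow_neg hlam0.le]
      field_simp
    have h7 : 4 * R / y ≤ 4 * CE * D ^ (kap - ε2 / 3) := by
      rw [h6]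
      apply mul_le_mul_of_nonneg_left _ (by positivity)
      calc P ^ (kap / (cl + 4)) * (lam ^ (2 / 3 : ℝ) / lam) ≤ D ^ kap * D ^ (-(ε2 / 3)) :=
            mul_le_mul hPε h5 (by positivity) (by positivity)
        _ = D ^ (kap - ε2 / 3) := by rw [← Real.rpow_add hDpos]; ring_nf
    rw [h2] at h1
    linarith
  have hη3le : η3 ≤ CE * D ^ (-σE) + CE * D ^ (-(ε2 / 6)) := by
    rw [hη3]
    apply add_le_add
    · apply mul_le_mul_of_nonneg_left _ hCE0.le
      exact Real.rpow_le_rpow_of_nonpos hDpos hPD (by linarith)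
    · apply mul_le_mul_of_nonneg_left _ hCE0.le
      have h1 : ((H : ℝ) / P) ^ 2 ≤ (lam ^ (-(2 / 3) : ℝ)) ^ 2 := by
        apply pow_le_pow_left₀ (by positivity)
        rw [div_le_iff₀ hPpos, mul_comm]
        exact hHle
      have h2 : (lam ^ (-(2 / 3) : ℝ)) ^ 2 = lam ^ (-(4 / 3) : ℝ) := by
        rw [← Real.rpow_natCast, ← Real.rpow_mul hlam0.le]
        norm_num
      calc V * ((H : ℝ) / P) ^ 2 ≤ V * lam ^ (-(4 / 3) : ℝ) := by
            rw [← h2]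
            exact mul_le_mul_of_nonneg_left h1 hV0
        _ = lam ^ (-(1 / 6) : ℝ) := by
            rw [hV, ← Real.rpow_add hlam0]; norm_num
        _ ≤ (D ^ ε2) ^ (-(1 / 6) : ℝ) :=
            Real.rpow_le_rpow_of_nonpos (by positivity) hlam1 (by norm_num)
        _ = D ^ (-(ε2 / 6)) := by rw [← Real.rpow_mul hDpos.le]; ring_nf
  have hD2σ : 0 < D ^ (-(2 * σ)) := by positivity
  have g3 : 128 * CE * D ^ (kap - ε2 / 3) ≤ D ^ (-(2 * σ)) := f3
  have g4 : 32 * D ^ (-1 : ℝ) ≤ D ^ (-(2 * σ)) := f4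
  have g5 : 16 * CE * D ^ (-σE) ≤ D ^ (-(2 * σ)) := f5
  have g6 : 16 * CE * D ^ (-(ε2 / 6)) ≤ D ^ (-(2 * σ)) := f6
  linarith only [hfin, hRH, hη3le, g3, g4, g5, g6, hD2σ]

end

end Pool.Agent.Helper57.NX
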