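import Pool.Agent.Helper57.NX.Defs2
import Pool.Agent.Helper5.NX.Basic

/-!
# Project NX, module NX-19, part B: change of variable and power functions
-/

set_option autoImplicit false

open Finset
open scoped BigOperators ComplexConjugate

namespace Pool.Agent.Helper41.NX

open Pool.Agent.Helper57.NX

noncomputable section

/-! ### power functions -/

theorem rpow_lip (p a b : ℝ) (ha : 0 < a) : ∃ C : ℝ, 0 < C ∧ ∀ x ∈ Set.Icc a b,
    ∀ y ∈ Set.Icc a b, |x ^ p - y ^ p| ≤ C * |x - y| := by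
  have hcont : ContinuousOn (fun x : ℝ => p * x ^ (p - 1)) (Set.Icc a b) := by
    apply ContinuousOn.mul continuousOn_const
    apply ContinuousOn.rpow_const continuousOn_id
    intro x hx
    left
    exact (ha.trans_le hx.1).ne'
  obtain ⟨C, hC⟩ := isCompact_Icc.exists_bound_of_continuousOn hcont
  refine ⟨max C 1, by positivity, fun x hx y hy => ?_⟩
  have h := (convex_Icc a b).norm_image_sub_le_of_norm_hasDerivWithin_le
    (f := fun x : ℝ => x ^ p) (f' := fun x => p * x ^ (p - 1)) (C := max C 1)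
    (fun z hz => (Real.hasDerivAt_rpow_const (Or.inl (ha.trans_le hz.1).ne')).hasDerivWithinAt)
    (fun z hz => (hC z hz).trans (le_max_left _ _)) hy hx
  simpa [Real.norm_eq_abs] using h

theorem rpow_taylor (p a b : ℝ) (ha : 0 < a) : ∃ C : ℝ, 0 < C ∧ ∀ x ∈ Set.Icc a b,
    ∀ y ∈ Set.Icc a b, |x ^ p - y ^ p - p * y ^ (p - 1) * (x - y)| ≤ C * (x - y) ^ 2 := by
  obtain ⟨C, hC0, hC⟩ := rpow_lip (p - 1) a b ha
  refine ⟨|p| * C + 1, by positivity, fun x hx y hy => ?_⟩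
  have hsub : Set.uIcc y x ⊆ Set.Icc a b := Set.uIcc_subset_Icc hy hx
  have h := (convex_uIcc y x).norm_image_sub_le_of_norm_hasDerivWithin_le
    (f := fun z : ℝ => z ^ p - p * y ^ (p - 1) * z)
    (f' := fun z => p * z ^ (p - 1) - p * y ^ (p - 1) * 1) (C := |p| * (C * |x - y|))
    (fun z hz => ((Real.hasDerivAt_rpow_const
      (Or.inl (ha.trans_le (hsub hz).1).ne')).sub ((hasDerivAt_id z).const_mul _)).hasDerivWithinAt)
    (fun z hz => ?_) (Set.left_mem_uIcc) (Set.right_mem_uIcc)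
  · rw [Real.norm_eq_abs, Real.norm_eq_abs] at h
    have h1 : x ^ p - y ^ p - p * y ^ (p - 1) * (x - y) =
        (x ^ p - p * y ^ (p - 1) * x) - (y ^ p - p * y ^ (p - 1) * y) := by ring
    rw [h1]
    refine h.trans ?_
    have h2 : |p| * (C * |x - y|) * |x - y| = |p| * C * (x - y) ^ 2 := by
      rw [← sq_abs (x - y)]; ring
    rw [h2]
    nlinarith [sq_nonneg (x - y)]
  · rw [Real.norm_eq_abs, mul_one, ← mul_sub, abs_mul]
    apply mul_le_mul_of_nonneg_left _ (abs_nonneg _)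
    refine (hC z (hsub hz) y hy).trans ?_
    apply mul_le_mul_of_nonneg_left _ hC0.le
    have := Set.abs_sub_left_of_mem_uIcc hz
    exact this

/-! ### change of variable -/

theorem sum_gaps (α : ℕ → ℕ) (F : ℕ → ℂ) (K : ℕ) (hα : ∀ j < K, α j ≤ α (j + 1)) :
    ∑ j ∈ range K, ∑ z ∈ Ico (α j) (α (j + 1)), F z = ∑ z ∈ Ico (α 0) (α K), F z := by
  induction K with
  | zero => simp
  | succ K ih =>
    rw [sum_range_succ, ih fun j hj => hα j (by omega)]
    have h0 : ∀ k ≤ K, α 0 ≤ α k := by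
      intro k hk
      induction k with
      | zero => exact le_rfl
      | succ k ihk => exact (ihk (by omega)).trans (hα k (by omega))
    exact sum_Ico_consecutive F (h0 K le_rfl) (hα K (by omega))

/-- replace the average over `j` by the average over `z` -/
theorem gap_change (K : ℕ) (hK : 1 ≤ K) (α : ℕ → ℕ) (hα : ∀ j < K, α j ≤ α (j + 1))
    (G Gt : ℕ → ℂ) (hG : ∀ j, ‖G j‖ ≤ 1) (g0 η η1 : ℝ) (hg0 : 0 < g0) (hη0 : 0 ≤ η)
    (hη : η ≤ 1 / 2) (hgap : ∀ j < K, |((α (j + 1) : ℝ) - α j) - g0| ≤ η * g0)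
    (hGt : ∀ j < K, ∀ z ∈ Ico (α j) (α (j + 1)), ‖G j - Gt z‖ ≤ η1) :
    g0 * K / 2 ≤ (α K : ℝ) - α 0 ∧ (α K : ℝ) - α 0 ≤ 2 * g0 * K ∧
    ‖𝔼 j ∈ range K, G j - 𝔼 z ∈ Ico (α 0) (α K), Gt z‖ ≤ η1 + 4 * η := by
  have hK0 : (0 : ℝ) < K := by positivity
  have htel : ∑ j ∈ range K, ((α (j + 1) : ℝ) - α j) = (α K : ℝ) - α 0 :=
    sum_range_sub (fun j => (α j : ℝ)) K
  have hZ : |((α K : ℝ) - α 0) - K * g0| ≤ K * (η * g0) := by
    rw [← htel]
    have h1 : ∑ j ∈ range K, ((α (j + 1) : ℝ) - α j) - K * g0 =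
        ∑ j ∈ range K, (((α (j + 1) : ℝ) - α j) - g0) := by
      rw [sum_sub_distrib]; simp
    rw [h1]
    refine (abs_sum_le_sum_abs _ _).trans ?_
    calc ∑ j ∈ range K, |((α (j + 1) : ℝ) - α j) - g0| ≤ ∑ j ∈ range K, η * g0 :=
          sum_le_sum fun j hj => hgap j (mem_range.mp hj)
      _ = _ := by simp
  have hηg : η * g0 ≤ g0 / 2 := by nlinarith
  have hKηg : K * (η * g0) ≤ K * (g0 / 2) := mul_le_mul_of_nonneg_left hηg hK0.le
  rw [abs_le] at hZ
  have hlow : g0 * K / 2 ≤ (α K : ℝ) - α 0 := by nlinarith [hZ.1]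
  have hup : (α K : ℝ) - α 0 ≤ 2 * g0 * K := by nlinarith [hZ.2, mul_pos hg0 hK0]
  refine ⟨hlow, hup, ?_⟩
  set Z : ℝ := (α K : ℝ) - α 0 with hZdef
  have hZpos : 0 < Z := lt_of_lt_of_le (by positivity) hlow
  have hle : α 0 ≤ α K := by
    have : (α 0 : ℝ) ≤ α K := by linarith
    exact_mod_cast this
  have hcard : (((Ico (α 0) (α K)).card : ℕ) : ℂ) = ((Z : ℝ) : ℂ) := by
    rw [Nat.card_Ico, hZdef]
    push_cast [hle]
    ring
  have h2 : 𝔼 z ∈ Ico (α 0) (α K), Gt z =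
      ∑ j ∈ range K, ∑ z ∈ Ico (α j) (α (j + 1)), Gt z / (Z : ℂ) := by
    rw [expect_eq_sum_div_card, hcard, ← sum_gaps α Gt K hα, sum_div]
    refine sum_congr rfl fun j _ => ?_
    rw [sum_div]
  have h3 : 𝔼 j ∈ range K, G j - 𝔼 z ∈ Ico (α 0) (α K), Gt z =
      ∑ j ∈ range K, ((1 / (K : ℂ) - (((α (j + 1) : ℝ) - α j : ℝ) : ℂ) / Z) * G j +
        ∑ z ∈ Ico (α j) (α (j + 1)), (G j - Gt z) / (Z : ℂ)) := by
    rw [h2, expect_eq_sum_div_card, card_range, sum_div, ← sum_sub_distrib]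
    refine sum_congr rfl fun j hj => ?_
    have h4 : ∑ z ∈ Ico (α j) (α (j + 1)), (G j - Gt z) / (Z : ℂ) =
        (((α (j + 1) : ℝ) - α j : ℝ) : ℂ) / Z * G j -
          ∑ z ∈ Ico (α j) (α (j + 1)), Gt z / (Z : ℂ) := by
      simp only [sub_div]
      rw [sum_sub_distrib, sum_const, Nat.card_Ico, nsmul_eq_mul]
      have := hα j (mem_range.mp hj)
      push_cast [this]
      ring
    rw [h4]
    ring
  rw [h3]
  have hg : ∀ j < K, |1 / (K : ℝ) - ((α (j + 1) : ℝ) - α j) / Z| ≤ 4 * η / K := by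
    intro j hj
    have h5 : 1 / (K : ℝ) - ((α (j + 1) : ℝ) - α j) / Z =
        ((Z - K * g0) - K * (((α (j + 1) : ℝ) - α j) - g0)) / (K * Z) := by
      field_simp
      ring
    rw [h5, abs_div, abs_of_pos (by positivity : 0 < (K : ℝ) * Z), div_le_div_iff₀ (by positivity)
      hK0]
    have h6 : |(Z - K * g0) - K * (((α (j + 1) : ℝ) - α j) - g0)| ≤ 2 * (K * (η * g0)) := by
      refine (abs_sub _ _).trans ?_
      have h7 : |Z - K * g0| ≤ K * (η * g0) := abs_le.mpr hZ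
      have h8 : |K * (((α (j + 1) : ℝ) - α j) - g0)| ≤ K * (η * g0) := by
        rw [abs_mul, abs_of_pos hK0]
        exact mul_le_mul_of_nonneg_left (hgap j hj) hK0.le
      linarith
    calc _ ≤ 2 * (K * (η * g0)) * K := mul_le_mul_of_nonneg_right h6 hK0.le
      _ = 4 * η * (K * (g0 * K / 2)) := by ring
      _ ≤ 4 * η * (K * Z) := by
          apply mul_le_mul_of_nonneg_left _ (by positivity)
          exact mul_le_mul_of_nonneg_left hlow hK0.le
  have hfin : ∀ j ∈ range K, ‖(1 / (K : ℂ) - (((α (j + 1) : ℝ) - α j : ℝ) : ℂ) / Z) * G j +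
        ∑ z ∈ Ico (α j) (α (j + 1)), (G j - Gt z) / (Z : ℂ)‖ ≤
      4 * η / K + ((α (j + 1) : ℝ) - α j) * (η1 / Z) := by
    intro j hj
    have hj' := mem_range.mp hj
    refine (norm_add_le _ _).trans (add_le_add ?_ ?_)
    · rw [norm_mul]
      have h9 : (1 / (K : ℂ) - (((α (j + 1) : ℝ) - α j : ℝ) : ℂ) / Z) =
          ((1 / (K : ℝ) - ((α (j + 1) : ℝ) - α j) / Z : ℝ) : ℂ) := by
        push_cast; ring
      rw [h9, Complex.norm_real, Real.norm_eq_abs]
      calc _ ≤ (4 * η / K) * 1 := mul_le_mul (hg j hj') (hG j) (norm_nonneg _) (by positivity)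
        _ = _ := mul_one _
    · refine (norm_sum_le _ _).trans ?_
      calc ∑ z ∈ Ico (α j) (α (j + 1)), ‖(G j - Gt z) / (Z : ℂ)‖
          ≤ ∑ z ∈ Ico (α j) (α (j + 1)), η1 / Z := by
            refine sum_le_sum fun z hz => ?_
            rw [norm_div, Complex.norm_real, Real.norm_eq_abs, abs_of_pos hZpos]
            exact div_le_div_of_nonneg_right (hGt j hj' z hz) hZpos.le
        _ = _ := by
            rw [sum_const, Nat.card_Ico, nsmul_eq_mul]
            have := hα j hj'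
            push_cast [this]
            ring
  refine (norm_sum_le _ _).trans ((sum_le_sum hfin).trans ?_)
  rw [sum_add_distrib, ← sum_mul, htel]
  have h10 : ∑ j ∈ range K, 4 * η / (K : ℝ) = 4 * η := by
    rw [sum_const, card_range, nsmul_eq_mul]
    field_simp
  rw [h10]
  have h11 : Z * (η1 / Z) = η1 := by field_simp
  rw [h11]
  linarith

/-! ### counting -/

theorem expect_close_le (H : ℕ) (hH : 1 ≤ H) (R : ℝ) (hR : 0 ≤ R) :
    𝔼 h ∈ range H, 𝔼 h' ∈ range H, (if |(h : ℝ) - h'| ≤ R then (1 : ℝ) else 0) ≤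
      (2 * R + 1) / H := by
  have hne : (range H).Nonempty := ⟨0, by simp; omega⟩
  have hH0 : (0 : ℝ) < H := by positivity
  refine expect_le hne fun h _ => ?_
  rw [expect_eq_sum_div_card, card_range]
  apply div_le_div_of_nonneg_right _ hH0.le
  rw [← sum_filter, sum_const, nsmul_eq_mul, mul_one]
  have h1 : ((range H).filter fun h' : ℕ => |(h : ℝ) - h'| ≤ R).card ≤
      (Finset.Icc ((h : ℤ) - ⌊R⌋₊) ((h : ℤ) + ⌊R⌋₊)).card := by
    apply Finset.card_le_card_of_injOn (fun h' : ℕ => (h' : ℤ))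
    · intro h' hh'
      have hh2 : |(h : ℝ) - h'| ≤ R := (mem_filter.mp (mem_coe.mp hh')).2
      rw [coe_Icc, Set.mem_Icc]
      change ((h : ℤ) - ⌊R⌋₊ ≤ (h' : ℤ) ∧ (h' : ℤ) ≤ (h : ℤ) + ⌊R⌋₊)
      have h2 := abs_le.mp hh2
      have h3 : (h : ℤ) - h' ≤ ⌊R⌋₊ := by
        rcases le_or_gt (h : ℤ) h' with h4 | h4
        · have : (0 : ℤ) ≤ ⌊R⌋₊ := by positivity
          omega
        · have h5 : h' ≤ h := by exact_mod_cast h4.le
          have h6 : h - h' ≤ ⌊R⌋₊ := by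
            apply Nat.le_floor
            push_cast [h5]
            exact h2.2
          omega
      have h7 : (h' : ℤ) - h ≤ ⌊R⌋₊ := by
        rcases le_or_gt (h' : ℤ) h with h4 | h4
        · have : (0 : ℤ) ≤ ⌊R⌋₊ := by positivity
          omega
        · have h5 : h ≤ h' := by exact_mod_cast h4.le
          have h6 : h' - h ≤ ⌊R⌋₊ := by
            apply Nat.le_floor
            push_cast [h5]
            linarith [h2.1]
          omega
      constructor <;> omega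
    · intro a _ b _ hab
      have hab' : (a : ℤ) = (b : ℤ) := hab
      exact_mod_cast hab'
  have h2 : (Finset.Icc ((h : ℤ) - ⌊R⌋₊) ((h : ℤ) + ⌊R⌋₊)).card = 2 * ⌊R⌋₊ + 1 := by
    rw [Int.card_Icc]
    omega
  rw [h2] at h1
  have h3 : (⌊R⌋₊ : ℝ) ≤ R := Nat.floor_le hR
  have h4 : ((((range H).filter fun h' : ℕ => |(h : ℝ) - h'| ≤ R).card : ℕ) : ℝ) ≤
      2 * ⌊R⌋₊ + 1 := by exact_mod_cast h1
  linarith

end

end Pool.Agent.Helper41.NX
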