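import Pool.Agent.Helper57.NX.Defs2
import Pool.Agent.Helper5.NX.Basic

/-!
# Project NX, module NX-19, part A: the TT* inequality
-/

set_option autoImplicit false

open Finset
open scoped BigOperators ComplexConjugate

namespace Pool.Agent.Helper41.NX

open Pool.Agent.Helper57.NX

noncomputable section

/-- shifting a sum over an interval -/
theorem sum_shift_le (Ψ : ℕ → ℂ) (hΨ : ∀ z, ‖Ψ z‖ ≤ 1) (a Z h : ℕ) :
    ‖∑ z ∈ Ico a (a + Z), Ψ (z + h) - ∑ z ∈ Ico a (a + Z), Ψ z‖ ≤ 2 * h := by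
  induction h with
  | zero => simp
  | succ h ih =>
    have h1 : ∑ z ∈ Ico a (a + Z), Ψ (z + (h + 1)) - ∑ z ∈ Ico a (a + Z), Ψ (z + h) =
        Ψ (a + Z + h) - Ψ (a + h) := by
      rw [← sum_sub_distrib]
      have h2 := Finset.sum_Ico_sub (fun z => Ψ (z + h)) (m := a) (n := a + Z) (by omega)
      rw [← h2]
      refine sum_congr rfl fun z _ => ?_
      rw [show z + (h + 1) = z + 1 + h by ring]
    have h3 : ∑ z ∈ Ico a (a + Z), Ψ (z + (h + 1)) - ∑ z ∈ Ico a (a + Z), Ψ z =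
        (Ψ (a + Z + h) - Ψ (a + h)) +
          (∑ z ∈ Ico a (a + Z), Ψ (z + h) - ∑ z ∈ Ico a (a + Z), Ψ z) := by
      rw [← h1]; ring
    rw [h3]
    refine (norm_add_le _ _).trans ?_
    have h4 : ‖Ψ (a + Z + h) - Ψ (a + h)‖ ≤ 2 := by
      refine (norm_sub_le _ _).trans ?_
      linarith [hΨ (a + Z + h), hΨ (a + h)]
    push_cast
    linarith

theorem sq_expect_le {ι : Type*} (s : Finset ι) (g : ι → ℝ) :
    (𝔼 i ∈ s, g i) ^ 2 ≤ 𝔼 i ∈ s, g i ^ 2 := by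
  rcases s.eq_empty_or_nonempty with rfl | hs
  · simp
  have hc : (0 : ℝ) < s.card := by exact_mod_cast hs.card_pos
  rw [expect_eq_sum_div_card, expect_eq_sum_div_card, div_pow, div_le_div_iff₀ (by positivity) hc]
  have := sq_sum_le_card_mul_sum_sq (s := s) (f := g)
  nlinarith

theorem norm_expect_sq {ι : Type*} (s : Finset ι) (g : ι → ℂ) :
    ((‖𝔼 i ∈ s, g i‖ ^ 2 : ℝ) : ℂ) = 𝔼 i ∈ s, 𝔼 j ∈ s, g i * conj (g j) := by
  push_cast
  rw [← Complex.mul_conj']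
  have h1 : conj (𝔼 i ∈ s, g i) = 𝔼 i ∈ s, conj (g i) := by
    rw [expect_eq_sum_div_card, expect_eq_sum_div_card, map_div₀, map_sum, map_natCast]
  rw [h1, expect_mul]
  refine expect_congr rfl fun i _ => ?_
  rw [mul_expect]

theorem tt_star {N : ℕ} [NeZero N] (f b : ZMod N → ℂ) (hf : ∀ x, ‖f x‖ ≤ 1) (hb : ∀ x, ‖b x‖ ≤ 1)
    (E : Finset (ZMod N)) (hbE : ∀ x, x ∉ E → b x = 0) (φ : ZMod N → ℝ → ℝ) (z0 Z H : ℕ)
    (hZ : 1 ≤ Z) (hH : 1 ≤ H) (δ : ℝ) (hδ : 2 * H / Z ≤ δ)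
    (h : δ ≤ ‖𝔼 x, b x * 𝔼 z ∈ Ico z0 (z0 + Z), f (x + (z : ZMod N)) * e (φ x z)‖) :
    ∃ w : ZMod N, (δ - 2 * H / Z) ^ 2 ≤ 𝔼 h ∈ range H, 𝔼 h' ∈ range H,
      (if w + (h : ZMod N) ∈ E ∧ w + (h' : ZMod N) ∈ E then
        ‖𝔼 z ∈ Ico z0 (z0 + Z), e (φ (w + (h : ZMod N)) ((z : ℝ) - h) -
          φ (w + (h' : ZMod N)) ((z : ℝ) - h'))‖ else 0) := by
  have hHne : (range H).Nonempty := ⟨0, by simp; omega⟩
  have hJne : (Ico z0 (z0 + Z)).Nonempty := ⟨z0, by simp; omega⟩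
  have hJc : (Ico z0 (z0 + Z)).card = Z := by simp
  have hZ0 : (0 : ℝ) < Z := by positivity
  -- choose the window
  have h1 : 𝔼 x, b x * 𝔼 z ∈ Ico z0 (z0 + Z), f (x + (z : ZMod N)) * e (φ x z) =
      𝔼 w : ZMod N, 𝔼 h ∈ range H, b (w + (h : ZMod N)) * 𝔼 z ∈ Ico z0 (z0 + Z),
        f (w + (h : ZMod N) + (z : ZMod N)) * e (φ (w + (h : ZMod N)) z) := by
    rw [expect_comm]
    have h2 : ∀ h ∈ range H, 𝔼 w : ZMod N, b (w + (h : ZMod N)) * 𝔼 z ∈ Ico z0 (z0 + Z),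
        f (w + (h : ZMod N) + (z : ZMod N)) * e (φ (w + (h : ZMod N)) z) =
        𝔼 x, b x * 𝔼 z ∈ Ico z0 (z0 + Z), f (x + (z : ZMod N)) * e (φ x z) := fun h _ =>
      expect_shift (fun x => b x * 𝔼 z ∈ Ico z0 (z0 + Z), f (x + (z : ZMod N)) * e (φ x z)) _
    rw [expect_congr rfl h2, expect_const hHne]
  rw [h1] at h
  obtain ⟨w, -, hw⟩ := Finset.exists_le_of_le_expect (s := (univ : Finset (ZMod N)))
    univ_nonempty (h.trans (RCLike.norm_expect_le (K := ℂ)))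
  refine ⟨w, ?_⟩
  -- move the shift
  have h3 : ∀ h ∈ range H, ‖𝔼 z ∈ Ico z0 (z0 + Z),
      f (w + (h : ZMod N) + (z : ZMod N)) * e (φ (w + (h : ZMod N)) z) -
      𝔼 z ∈ Ico z0 (z0 + Z), f (w + (z : ZMod N)) * e (φ (w + (h : ZMod N)) ((z : ℝ) - h))‖ ≤
      2 * H / Z := by
    intro h hh
    rw [mem_range] at hh
    rw [expect_eq_sum_div_card, expect_eq_sum_div_card, hJc, ← sub_div, norm_div,
      Complex.norm_natCast]
    apply div_le_div_of_nonneg_right _ hZ0.le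
    have h4 := sum_shift_le (fun z => f (w + (z : ZMod N)) *
      e (φ (w + (h : ZMod N)) ((z : ℝ) - h))) (fun z => by
        rw [norm_mul, norm_e, mul_one]; exact hf _) z0 Z h
    have h5 : ∀ z : ℕ, f (w + ((z + h : ℕ) : ZMod N)) *
        e (φ (w + (h : ZMod N)) (((z + h : ℕ) : ℝ) - h)) =
        f (w + (h : ZMod N) + (z : ZMod N)) * e (φ (w + (h : ZMod N)) z) := by
      intro z
      have h6 : w + ((z + h : ℕ) : ZMod N) = w + (h : ZMod N) + (z : ZMod N) := by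
        push_cast; ring
      have h7 : (((z + h : ℕ) : ℝ) - h) = z := by push_cast; ring
      rw [h6, h7]
    simp only [h5] at h4
    refine h4.trans ?_
    have : (h : ℝ) ≤ H := by exact_mod_cast hh.le
    linarith
  have h8 : δ - 2 * H / Z ≤ ‖𝔼 z ∈ Ico z0 (z0 + Z), f (w + (z : ZMod N)) *
      𝔼 h ∈ range H, b (w + (h : ZMod N)) * e (φ (w + (h : ZMod N)) ((z : ℝ) - h))‖ := by
    have h9 : 𝔼 z ∈ Ico z0 (z0 + Z), f (w + (z : ZMod N)) *
      𝔼 h ∈ range H, b (w + (h : ZMod N)) * e (φ (w + (h : ZMod N)) ((z : ℝ) - h)) =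
      𝔼 h ∈ range H, b (w + (h : ZMod N)) * 𝔼 z ∈ Ico z0 (z0 + Z), f (w + (z : ZMod N)) *
        e (φ (w + (h : ZMod N)) ((z : ℝ) - h)) := by
      simp only [mul_expect]
      rw [expect_comm]
      refine expect_congr rfl fun h _ => expect_congr rfl fun z _ => ?_
      ring
    rw [h9]
    have h10 : ‖𝔼 h ∈ range H, b (w + (h : ZMod N)) * 𝔼 z ∈ Ico z0 (z0 + Z),
        f (w + (h : ZMod N) + (z : ZMod N)) * e (φ (w + (h : ZMod N)) z) -
        𝔼 h ∈ range H, b (w + (h : ZMod N)) * 𝔼 z ∈ Ico z0 (z0 + Z), f (w + (z : ZMod N)) *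
        e (φ (w + (h : ZMod N)) ((z : ℝ) - h))‖ ≤ 2 * H / Z := by
      rw [← expect_sub_distrib]
      refine (RCLike.norm_expect_le (K := ℂ)).trans (expect_le hHne fun h hh => ?_)
      rw [← mul_sub, norm_mul]
      calc _ ≤ 1 * (2 * H / Z : ℝ) := mul_le_mul (hb _) (h3 h hh) (norm_nonneg _) zero_le_one
        _ = _ := one_mul _
    have h11 := norm_sub_norm_le (𝔼 h ∈ range H, b (w + (h : ZMod N)) * 𝔼 z ∈ Ico z0 (z0 + Z),
        f (w + (h : ZMod N) + (z : ZMod N)) * e (φ (w + (h : ZMod N)) z))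
        (𝔼 h ∈ range H, b (w + (h : ZMod N)) * 𝔼 z ∈ Ico z0 (z0 + Z), f (w + (z : ZMod N)) *
        e (φ (w + (h : ZMod N)) ((z : ℝ) - h)))
    linarith
  -- Cauchy-Schwarz
  have h12 : δ - 2 * H / Z ≤ 𝔼 z ∈ Ico z0 (z0 + Z),
      ‖𝔼 h ∈ range H, b (w + (h : ZMod N)) * e (φ (w + (h : ZMod N)) ((z : ℝ) - h))‖ := by
    refine h8.trans ((RCLike.norm_expect_le (K := ℂ)).trans (expect_le_expect fun z _ => ?_))
    rw [norm_mul]
    calc _ ≤ 1 * ‖𝔼 h ∈ range H, b (w + (h : ZMod N)) *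
          e (φ (w + (h : ZMod N)) ((z : ℝ) - h))‖ :=
          mul_le_mul_of_nonneg_right (hf _) (norm_nonneg _)
      _ = _ := one_mul _
  have h13 : (δ - 2 * H / Z) ^ 2 ≤ 𝔼 z ∈ Ico z0 (z0 + Z),
      ‖𝔼 h ∈ range H, b (w + (h : ZMod N)) * e (φ (w + (h : ZMod N)) ((z : ℝ) - h))‖ ^ 2 :=
    (pow_le_pow_left₀ (by linarith) h12 2).trans (sq_expect_le _ _)
  refine h13.trans ?_
  have h14 : ((𝔼 z ∈ Ico z0 (z0 + Z),
      ‖𝔼 h ∈ range H, b (w + (h : ZMod N)) *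
        e (φ (w + (h : ZMod N)) ((z : ℝ) - h))‖ ^ 2 : ℝ) : ℂ) =
      𝔼 h ∈ range H, 𝔼 h' ∈ range H, (b (w + (h : ZMod N)) * conj (b (w + (h' : ZMod N)))) *
        𝔼 z ∈ Ico z0 (z0 + Z), e (φ (w + (h : ZMod N)) ((z : ℝ) - h) -
          φ (w + (h' : ZMod N)) ((z : ℝ) - h')) := by
    have h15 : ((𝔼 z ∈ Ico z0 (z0 + Z),
      ‖𝔼 h ∈ range H, b (w + (h : ZMod N)) *
        e (φ (w + (h : ZMod N)) ((z : ℝ) - h))‖ ^ 2 : ℝ) : ℂ) =
        𝔼 z ∈ Ico z0 (z0 + Z), ((‖𝔼 h ∈ range H, b (w + (h : ZMod N)) *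
        e (φ (w + (h : ZMod N)) ((z : ℝ) - h))‖ ^ 2 : ℝ) : ℂ) := by
      rw [expect_eq_sum_div_card, expect_eq_sum_div_card]
      push_cast
      rfl
    rw [h15]
    have h16 : ∀ z ∈ Ico z0 (z0 + Z), ((‖𝔼 h ∈ range H, b (w + (h : ZMod N)) *
        e (φ (w + (h : ZMod N)) ((z : ℝ) - h))‖ ^ 2 : ℝ) : ℂ) =
        𝔼 h ∈ range H, 𝔼 h' ∈ range H, (b (w + (h : ZMod N)) * conj (b (w + (h' : ZMod N)))) *
          e (φ (w + (h : ZMod N)) ((z : ℝ) - h) - φ (w + (h' : ZMod N)) ((z : ℝ) - h')) := by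
      intro z _
      rw [norm_expect_sq]
      refine expect_congr rfl fun h _ => expect_congr rfl fun h' _ => ?_
      have h20 : e (φ (w + (h : ZMod N)) ((z : ℝ) - h) - φ (w + (h' : ZMod N)) ((z : ℝ) - h')) =
          e (φ (w + (h : ZMod N)) ((z : ℝ) - h)) *
            conj (e (φ (w + (h' : ZMod N)) ((z : ℝ) - h'))) := by
        rw [← e_neg, ← e_add]
        congr 1
      rw [h20, map_mul]
      ring
    rw [expect_congr rfl h16, expect_comm]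
    refine expect_congr rfl fun h _ => ?_
    rw [expect_comm]
    refine expect_congr rfl fun h' _ => ?_
    rw [mul_expect]
  have h17 : 𝔼 z ∈ Ico z0 (z0 + Z),
      ‖𝔼 h ∈ range H, b (w + (h : ZMod N)) *
        e (φ (w + (h : ZMod N)) ((z : ℝ) - h))‖ ^ 2 ≤
      ‖𝔼 h ∈ range H, 𝔼 h' ∈ range H, (b (w + (h : ZMod N)) * conj (b (w + (h' : ZMod N)))) *
        𝔼 z ∈ Ico z0 (z0 + Z), e (φ (w + (h : ZMod N)) ((z : ℝ) - h) -
          φ (w + (h' : ZMod N)) ((z : ℝ) - h'))‖ := by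
    rw [← h14, Complex.norm_real]
    exact le_abs_self _
  refine h17.trans ?_
  refine (RCLike.norm_expect_le (K := ℂ)).trans (expect_le_expect fun h _ => ?_)
  refine (RCLike.norm_expect_le (K := ℂ)).trans (expect_le_expect fun h' _ => ?_)
  split_ifs with hE
  · rw [norm_mul, norm_mul, RCLike.norm_conj]
    have h18 : ‖b (w + (h : ZMod N))‖ * ‖b (w + (h' : ZMod N))‖ ≤ 1 :=
      mul_le_one₀ (hb _) (norm_nonneg _) (hb _)
    calc _ ≤ 1 * ‖𝔼 z ∈ Ico z0 (z0 + Z), e (φ (w + (h : ZMod N)) ((z : ℝ) - h) -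
          φ (w + (h' : ZMod N)) ((z : ℝ) - h'))‖ :=
          mul_le_mul_of_nonneg_right h18 (norm_nonneg _)
      _ = _ := one_mul _
  · rw [not_and_or] at hE
    rcases hE with hE | hE
    · rw [hbE _ hE]; simp
    · rw [hbE _ hE]; simp

end

end Pool.Agent.Helper41.NX
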