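import Pool.Agent.Helper36.NX.U2Block

/-!
# Project NX, module NX-7 (re-export of `Pool.Agent.Helper36.NX.U2Block`)
-/
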